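import Mathlib.AlgebraicTopology.SimplicialSet.Homotopy
import Mathlib.AlgebraicTopology.SimplicialSet.AnodyneExtensions.PushoutProduct
import Mathlib.AlgebraicTopology.SimplicialSet.Nerve

/-!
# Homotopies and fibrations of simplicial sets: horn filling lemmas
-/

open CategoryTheory MonoidalCategory CartesianMonoidalCategory Simplicial
  HomotopicalAlgebra Limits Opposite

universe u

namespace Pool.Agent.K4H28.WHE

open SSet SSet.modelCategoryQuillen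

/-- The vertex inclusions of the interval are anodyne. -/
lemma anodyne_delta (j : Fin 2) :
    anodyneExtensions (stdSimplex.δ j : (Δ[0] : SSet.{u}) ⟶ Δ[1]) := by
  intro E B p hp
  rw [← HomotopicalAlgebra.fibration_iff] at hp
  refine ⟨fun {f b} sq => ?_⟩
  obtain ⟨i, hi⟩ : ∃ i : Fin 2, j ≠ i := by
    fin_cases j
    · exact ⟨1, by simp⟩
    · exact ⟨0, by simp⟩
  obtain ⟨φ, h1, h2⟩ := horn.IsCompatible.exists_lift (n := 0) (i := i)
    (f := fun _ _ => f) (by simp) p b (by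
      intro j' hj'
      have : j' = j := by
        have h1 : ∀ a b c : Fin 2, a ≠ b → c ≠ b → a = c := by decide
        exact h1 _ _ _ hj' hi
      subst this
      exact sq.w)
  exact ⟨⟨⟨φ, h1 j hi, h2⟩⟩⟩

lemma delta_one_eq : (stdSimplex.δ 1 : (Δ[0] : SSet.{u}) ⟶ Δ[1]) =
    SSet.const (stdSimplex.obj₀Equiv.{u}.symm 0) := by
  apply yonedaEquiv.injective
  ext i
  fin_cases i
  rfl

lemma delta_zero_eq : (stdSimplex.δ 0 : (Δ[0] : SSet.{u}) ⟶ Δ[1]) =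
    SSet.const (stdSimplex.obj₀Equiv.{u}.symm 1) := by
  apply yonedaEquiv.injective
  ext i
  fin_cases i
  rfl

lemma whiskerLeft_delta_one (X : SSet.{u}) :
    X ◁ (stdSimplex.δ 1 : (Δ[0] : SSet.{u}) ⟶ Δ[1]) = fst X _ ≫ ι₀ := by
  rw [delta_one_eq]
  rfl

lemma whiskerLeft_delta_zero (X : SSet.{u}) :
    X ◁ (stdSimplex.δ 0 : (Δ[0] : SSet.{u}) ⟶ Δ[1]) = fst X _ ≫ ι₁ := by
  rw [delta_zero_eq]
  rfl

/-- The section of the projection `X ⊗ Δ[0] ⟶ X`. -/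
noncomputable def toProdZero (X : SSet.{u}) : X ⟶ X ⊗ Δ[0] :=
  lift (𝟙 X) (SSet.const (stdSimplex.obj₀Equiv.{u}.symm 0))

@[reassoc (attr := simp)]
lemma toProdZero_fst (X : SSet.{u}) : toProdZero X ≫ fst X _ = 𝟙 X := rfl

lemma cancel_fst_zero {X Y : SSet.{u}} {f g : X ⟶ Y}
    (h : fst X Δ[0] ≫ f = fst X Δ[0] ≫ g) : f = g := by
  have := toProdZero X ≫= h
  simpa using this

/-- Filling a horn `Λ[2, 0]` relatively to a fibration. -/
lemma edge_lemma {E B : SSet.{u}} (p : E ⟶ B) [Fibration p] (e₁ e₂ : Δ[1] ⟶ E)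
    (h0 : stdSimplex.δ 1 ≫ e₁ = stdSimplex.δ 1 ≫ e₂) (hp : e₁ ≫ p = e₂ ≫ p) :
    ∃ e : Δ[1] ⟶ E, stdSimplex.δ 1 ≫ e = stdSimplex.δ 0 ≫ e₁ ∧
      stdSimplex.δ 0 ≫ e = stdSimplex.δ 0 ≫ e₂ ∧
      e ≫ p = stdSimplex.σ 0 ≫ stdSimplex.δ 0 ≫ e₁ ≫ p := by
  have d1 : ∀ j k : Fin 3, j ≠ 0 → k ≠ 0 → j < k → j = 1 ∧ k = 2 := by decide
  have d2 : ∀ j : Fin 3, j ≠ 0 → j = 1 ∨ j = 2 := by decide
  obtain ⟨φ, h1, h2⟩ := horn.IsCompatible.exists_lift (n := 1) (i := 0)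
    (f := fun j _ => if j = 1 then e₂ else e₁) (by
      rw [horn.isCompatible_iff]
      intro j k hj hk hjk
      obtain ⟨rfl, rfl⟩ := d1 j k hj hk hjk
      exact h0.symm) p (stdSimplex.σ 1 ≫ e₁ ≫ p) (by
      intro j hj
      rcases d2 j hj with rfl | rfl
      · have : stdSimplex.δ (1 : Fin 3) ≫ stdSimplex.σ (1 : Fin 2) = 𝟙 (Δ[1] : SSet.{u}) :=
          CosimplicialObject.δ_comp_σ_self stdSimplex (n := 1) (i := 1)
        simp [reassoc_of% this, hp]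
      · have : stdSimplex.δ (2 : Fin 3) ≫ stdSimplex.σ (1 : Fin 2) = 𝟙 (Δ[1] : SSet.{u}) :=
          CosimplicialObject.δ_comp_σ_succ stdSimplex (n := 1) (i := 1)
        simp [reassoc_of% this])
  have h11 := h1 1 (by simp)
  have h12 := h1 2 (by simp)
  simp only [if_true] at h11
  simp only [show ¬ ((2 : Fin 3) = 1) by decide, if_false] at h12
  refine ⟨stdSimplex.δ 0 ≫ φ, ?_, ?_, ?_⟩
  · have : stdSimplex.δ (0 : Fin 2) ≫ stdSimplex.δ (2 : Fin 3) =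
        (stdSimplex.δ (1 : Fin 2) ≫ stdSimplex.δ (0 : Fin 3) : (Δ[0] : SSet.{u}) ⟶ Δ[2]) :=
      CosimplicialObject.δ_comp_δ stdSimplex (n := 0) (i := 0) (j := 1) (by simp)
    rw [← h12, ← reassoc_of% this]
  · have : stdSimplex.δ (0 : Fin 2) ≫ stdSimplex.δ (1 : Fin 3) =
        (stdSimplex.δ (0 : Fin 2) ≫ stdSimplex.δ (0 : Fin 3) : (Δ[0] : SSet.{u}) ⟶ Δ[2]) :=
      CosimplicialObject.δ_comp_δ stdSimplex (n := 0) (i := 0) (j := 0) (by simp)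
    rw [← h11, ← reassoc_of% this]
  · have : stdSimplex.δ (0 : Fin 3) ≫ stdSimplex.σ (1 : Fin 2) =
        (stdSimplex.σ (0 : Fin 1) ≫ stdSimplex.δ (0 : Fin 2) : (Δ[1] : SSet.{u}) ⟶ Δ[1]) :=
      CosimplicialObject.δ_comp_σ_of_le stdSimplex (n := 0) (i := 0) (j := 0) (by simp)
    rw [Category.assoc, h2, reassoc_of% this]

lemma delta_comp_curry_one {X Z : SSet.{u}} (h : X ⊗ Δ[1] ⟶ Z) :
    stdSimplex.δ 1 ≫ MonoidalClosed.curry h = MonoidalClosed.curry (fst X _ ≫ ι₀ ≫ h) := by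
  rw [← MonoidalClosed.curry_natural_left, whiskerLeft_delta_one, Category.assoc]

lemma delta_comp_curry_zero {X Z : SSet.{u}} (h : X ⊗ Δ[1] ⟶ Z) :
    stdSimplex.δ 0 ≫ MonoidalClosed.curry h = MonoidalClosed.curry (fst X _ ≫ ι₁ ≫ h) := by
  rw [← MonoidalClosed.curry_natural_left, whiskerLeft_delta_zero, Category.assoc]

/-- Filling a horn `X ⊗ Λ[2, 0]` relatively to a fibration. -/
lemma homotopy_lemma {X E B : SSet.{u}} (p : E ⟶ B) [Fibration p] (h₁ h₂ : X ⊗ Δ[1] ⟶ E)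
    (h0 : ι₀ ≫ h₁ = ι₀ ≫ h₂) (hp : h₁ ≫ p = h₂ ≫ p) :
    ∃ h : X ⊗ Δ[1] ⟶ E, ι₀ ≫ h = ι₁ ≫ h₁ ∧ ι₁ ≫ h = ι₁ ≫ h₂ ∧
      h ≫ p = fst X _ ≫ ι₁ ≫ h₁ ≫ p := by
  obtain ⟨e, he1, he2, he3⟩ := edge_lemma ((ihom X).map p)
    (MonoidalClosed.curry h₁) (MonoidalClosed.curry h₂)
    (by rw [delta_comp_curry_one, delta_comp_curry_one, h0])
    (by rw [← MonoidalClosed.curry_natural_right, ← MonoidalClosed.curry_natural_right, hp])
  obtain ⟨h, rfl⟩ : ∃ h, e = MonoidalClosed.curry h :=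
    ⟨MonoidalClosed.uncurry e, (MonoidalClosed.curry_uncurry e).symm⟩
  rw [delta_comp_curry_one, delta_comp_curry_zero] at he1
  rw [delta_comp_curry_zero, delta_comp_curry_zero] at he2
  refine ⟨h, cancel_fst_zero (MonoidalClosed.curry_injective he1),
    cancel_fst_zero (MonoidalClosed.curry_injective he2), ?_⟩
  rw [← MonoidalClosed.curry_natural_right, ← MonoidalClosed.curry_natural_right,
    delta_comp_curry_zero, ← MonoidalClosed.curry_natural_left] at he3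
  have := MonoidalClosed.curry_injective he3
  rw [this]
  rfl

/-- Existence of a homotopy. -/
def Homotopic {X Z : SSet.{u}} (f g : X ⟶ Z) : Prop :=
  ∃ h : X ⊗ Δ[1] ⟶ Z, ι₀ ≫ h = f ∧ ι₁ ≫ h = g

lemma Homotopic.refl {X Z : SSet.{u}} (f : X ⟶ Z) : Homotopic f f :=
  ⟨fst _ _ ≫ f, by simp, by simp⟩

lemma Homotopic.comp_left {W X Z : SSet.{u}} {f g : X ⟶ Z} (h : Homotopic f g) (k : W ⟶ X) :
    Homotopic (k ≫ f) (k ≫ g) := by
  obtain ⟨h, rfl, rfl⟩ := h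
  exact ⟨k ▷ _ ≫ h, by simp, by simp⟩

lemma Homotopic.comp_right {X Y Z : SSet.{u}} {f g : X ⟶ Y} (h : Homotopic f g) (k : Y ⟶ Z) :
    Homotopic (f ≫ k) (g ≫ k) := by
  obtain ⟨h, rfl, rfl⟩ := h
  exact ⟨h ≫ k, by simp, by simp⟩

lemma Homotopic.eucl {X Z : SSet.{u}} [KanComplex Z] {f g k : X ⟶ Z}
    (h₁ : Homotopic f g) (h₂ : Homotopic f k) : Homotopic g k := by
  obtain ⟨h₁, rfl, rfl⟩ := h₁
  obtain ⟨h₂, hh, rfl⟩ := h₂
  obtain ⟨h, h3, h4, -⟩ := homotopy_lemma (terminal.from Z) h₁ h₂ hh.symm (by simp)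
  exact ⟨h, h3, h4⟩

lemma Homotopic.symm {X Z : SSet.{u}} [KanComplex Z] {f g : X ⟶ Z}
    (h : Homotopic f g) : Homotopic g f := h.eucl (Homotopic.refl f)

lemma Homotopic.trans {X Z : SSet.{u}} [KanComplex Z] {f g k : X ⟶ Z}
    (h₁ : Homotopic f g) (h₂ : Homotopic g k) : Homotopic f k := h₁.symm.eucl h₂

end Pool.Agent.K4H28.WHE
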