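import Pool.Agent.K4H28.WHE.NerveH

/-!
# A functorial embedding of simplicial sets into contractible ones
-/

open CategoryTheory MonoidalCategory CartesianMonoidalCategory Simplicial
  HomotopicalAlgebra Limits Opposite

universe v u

namespace Pool.Agent.K4H28.WHE

open SSet SSet.modelCategoryQuillen

/-- Partial families of simplices of `X`. -/
def K (X : SSet.{u}) : SSet.{u} where
  obj n := ∀ (m : SimplexCategoryᵒᵖ), (n ⟶ m) → Option (X.obj m)
  map f := ↾fun a m g => a m (f ≫ g)
  map_id n := by
    refine ConcreteCategory.hom_ext _ _ (fun a => ?_)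
    funext m g
    change a m (𝟙 n ≫ g) = a m g
    rw [Category.id_comp]
  map_comp f g := by
    refine ConcreteCategory.hom_ext _ _ (fun a => ?_)
    funext m h
    change a m ((f ≫ g) ≫ h) = a m (f ≫ g ≫ h)
    rw [Category.assoc]

/-- The embedding of `X` into `K X`. -/
def eta (X : SSet.{u}) : X ⟶ K X where
  app n := ↾fun x m g => some (X.map g x)
  naturality n m f := by
    ext x
    funext k g
    change some (X.map g (X.map f x)) = some (X.map (f ≫ g) x)
    simp

lemma eta_app_injective (X : SSet.{u}) (n : SimplexCategoryᵒᵖ) :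
    Function.Injective ((eta X).app n) := by
  intro x y h
  have h2 : some (X.map (𝟙 n) x) = some (X.map (𝟙 n) y) := congrFun (congrFun h n) (𝟙 n)
  simpa using h2

/-- The initial vertex of the interval. -/
def zr (n : SimplexCategoryᵒᵖ) : (Δ[1] : SSet.{u}).obj n :=
  (Δ[1] : SSet.{u}).map (n.unop.const _ 0).op (stdSimplex.obj₀Equiv.{u}.symm 0)

/-- The final vertex of the interval. -/
def wn (n : SimplexCategoryᵒᵖ) : (Δ[1] : SSet.{u}).obj n :=
  (Δ[1] : SSet.{u}).map (n.unop.const _ 0).op (stdSimplex.obj₀Equiv.{u}.symm 1)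

lemma map_zr {n m : SimplexCategoryᵒᵖ} (g : n ⟶ m) : (Δ[1] : SSet.{u}).map g (zr n) = zr m := rfl

lemma map_wn {n m : SimplexCategoryᵒᵖ} (g : n ⟶ m) : (Δ[1] : SSet.{u}).map g (wn n) = wn m := rfl

lemma wn_ne_zr (n : SimplexCategoryᵒᵖ) : (wn n : (Δ[1] : SSet.{u}).obj n) ≠ zr n := by
  induction n using Opposite.rec with | _ n
  induction n using SimplexCategory.rec with | _ n
  intro h
  have := congrArg (fun t : (Δ[1] : SSet.{u}) _⦋n⦌ => t 0) h
  revert this
  change ¬ ((1 : Fin 2) = 0)
  decide

open Classical in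
/-- The contraction. -/
noncomputable def contraction (X : SSet.{u}) : K X ⊗ Δ[1] ⟶ K X where
  app n := ↾fun x m g => if (Δ[1] : SSet.{u}).map g x.2 = zr m then x.1 m g else none
  naturality n m f := by
    ext x
    funext k g
    change (if (Δ[1] : SSet.{u}).map g ((Δ[1] : SSet.{u}).map f x.2) = zr k then
      x.1 k (f ≫ g) else none) =
      if (Δ[1] : SSet.{u}).map (f ≫ g) x.2 = zr k then x.1 k (f ≫ g) else none
    simp only [Functor.map_comp_apply]

/-- The base vertex. -/
def baseK (X : SSet.{u}) : (K X) _⦋0⦌ := fun _ _ => none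

lemma contraction_zero (X : SSet.{u}) : ι₀ ≫ contraction X = 𝟙 _ := by
  ext n a
  funext m g
  change (if (Δ[1] : SSet.{u}).map g (zr n) = zr m then a m g else none) = a m g
  rw [map_zr, if_pos rfl]

lemma contraction_one (X : SSet.{u}) : ι₁ ≫ contraction X = SSet.const (baseK X) := by
  ext n a
  funext m g
  change (if (Δ[1] : SSet.{u}).map g (wn n) = zr m then a m g else none) = none
  rw [map_wn, if_neg (wn_ne_zr m)]

lemma isWeq_fst_K (X Y : SSet.{u}) : IsWeq (fst Y (K X)) := by
  apply IsWeq.of_homotopyInverse (lift (𝟙 Y) (SSet.const (baseK X)))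
  · apply KHomotopic.symm
    apply Homotopic.khomotopic
    refine ⟨lift (fst _ _ ≫ fst _ _) ((snd Y (K X) ▷ Δ[1]) ≫ contraction X), ?_, ?_⟩
    · rw [comp_lift, ι₀_fst_assoc, ι₀_comp_assoc, contraction_zero, Category.comp_id,
        lift_fst_snd]
    · rw [comp_lift, ι₁_fst_assoc, ι₁_comp_assoc, contraction_one, comp_lift,
        Category.comp_id]
      rfl
  · simpa using KHomotopic.refl _

end Pool.Agent.K4H28.WHE
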