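import Pool.Agent.K4H28.WHE.Tot

/-!
# Interval homotopies of presheaves
-/

open CategoryTheory Opposite

universe u

namespace Pool.Agent.K4H28.WHE

/-- A cylinder endofunctor on a site, with an interval presheaf. -/
structure Cyl (S : Type u) [SmallCategory S] where
  /-- the endofunctor -/
  T : S ⥤ S
  /-- the two sections -/
  σ : Bool → (𝟭 S ⟶ T)
  /-- the projection -/
  π : T ⟶ 𝟭 S
  σπ : ∀ t c, (σ t).app c ≫ π.app c = 𝟙 c
  /-- the interval -/
  I : Sᵒᵖ ⥤ Type u
  /-- the end points -/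
  pt : Bool → ∀ c : Sᵒᵖ, I.obj c
  pt_map : ∀ t {c c' : Sᵒᵖ} (f : c ⟶ c'), I.map f (pt t c) = pt t c'
  pt_ne : ∀ c, pt true c ≠ pt false c
  /-- the generic section of the interval -/
  β : ∀ c : S, I.obj (op (T.obj c))
  β_map : ∀ {c c' : S} (a : c ⟶ c'), I.map (T.map a).op (β c') = β c
  β_σ : ∀ t c, I.map ((σ t).app c).op (β c) = pt t (op c)

variable {S : Type u} [SmallCategory S] (C : Cyl S)

/-- Homotopies parametrized by the interval presheaf. -/
structure IHomotopy {Z Z' : Sᵒᵖ ⥤ Type u} (f₀ f₁ : Z ⟶ Z') where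
  /-- the homotopy -/
  h : ∀ c, Z.obj c → C.I.obj c → Z'.obj c
  nat : ∀ {c c' : Sᵒᵖ} (g : c ⟶ c') z i, Z'.map g (h c z i) = h c' (Z.map g z) (C.I.map g i)
  h₀ : ∀ c z, h c z (C.pt false c) = f₀.app c z
  h₁ : ∀ c z, h c z (C.pt true c) = f₁.app c z

variable {C} {Z Z' : Sᵒᵖ ⥤ Type u}

/-- The middle functor of an interval homotopy. -/
def IHomotopy.mid {f₀ f₁ : Z ⟶ Z'} (H : IHomotopy C f₀ f₁) : El Z ⥤ El Z' where
  obj e := ⟨C.T.obj e.c, H.h _ (Z.map (C.π.app e.c).op e.x) (C.β e.c)⟩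
  map {e e'} s := ⟨C.T.map s.a, by
    change Z'.map (C.T.map s.a).op (H.h _ (Z.map (C.π.app e'.c).op e'.x) (C.β e'.c)) =
      H.h _ (Z.map (C.π.app e.c).op e.x) (C.β e.c)
    rw [H.nat, C.β_map, ← Functor.map_comp_apply, ← op_comp, C.π.naturality, op_comp,
      Functor.map_comp_apply]
    congr 2
    exact s.w⟩
  map_id e := by
    apply El.hom_ext
    exact C.T.map_id _
  map_comp s t := by
    apply El.hom_ext
    exact C.T.map_comp _ _

/-- The comparison with the starting point of the homotopy. -/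
def IHomotopy.nat₀ {f₀ f₁ : Z ⟶ Z'} (H : IHomotopy C f₀ f₁) : El.map f₀ ⟶ H.mid where
  app e := ⟨(C.σ false).app e.c, by
    change Z'.map ((C.σ false).app e.c).op (H.h _ (Z.map (C.π.app e.c).op e.x) (C.β e.c)) =
      f₀.app _ e.x
    rw [H.nat, C.β_σ, ← Functor.map_comp_apply, ← op_comp, C.σπ]
    have h1 : Z.map (𝟙 e.c).op e.x = e.x := by simp
    exact (congrArg (fun z => H.h (op e.c) z (C.pt false (op e.c))) h1).trans (H.h₀ _ _)⟩
  naturality e e' s := by
    apply El.hom_ext
    exact (C.σ false).naturality s.a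

/-- The comparison with the end point of the homotopy. -/
def IHomotopy.nat₁ {f₀ f₁ : Z ⟶ Z'} (H : IHomotopy C f₀ f₁) : El.map f₁ ⟶ H.mid where
  app e := ⟨(C.σ true).app e.c, by
    change Z'.map ((C.σ true).app e.c).op (H.h _ (Z.map (C.π.app e.c).op e.x) (C.β e.c)) =
      f₁.app _ e.x
    rw [H.nat, C.β_σ, ← Functor.map_comp_apply, ← op_comp, C.σπ]
    have h1 : Z.map (𝟙 e.c).op e.x = e.x := by simp
    exact (congrArg (fun z => H.h (op e.c) z (C.pt true (op e.c))) h1).trans (H.h₁ _ _)⟩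
  naturality e e' s := by
    apply El.hom_ext
    exact (C.σ true).naturality s.a

lemma IHomotopy.khomotopic {f₀ f₁ : Z ⟶ Z'} (H : IHomotopy C f₀ f₁) :
    KHomotopic (nerveMap (El.map f₀)) (nerveMap (El.map f₁)) :=
  (khomotopic_nerveMap H.nat₀).trans (khomotopic_nerveMap H.nat₁).symm

variable (C)

/-- Contractions of presheaves. -/
structure Contr (K : Sᵒᵖ ⥤ Type u) where
  /-- the base point -/
  b : ∀ c, K.obj c
  b_map : ∀ {c c' : Sᵒᵖ} (g : c ⟶ c'), K.map g (b c) = b c'
  /-- the contraction -/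
  h : ∀ c, K.obj c → C.I.obj c → K.obj c
  nat : ∀ {c c' : Sᵒᵖ} (g : c ⟶ c') z i, K.map g (h c z i) = h c' (K.map g z) (C.I.map g i)
  h₀ : ∀ c z, h c z (C.pt false c) = z
  h₁ : ∀ c z, h c z (C.pt true c) = b c

/-- Products of presheaves. -/
def prodP (K K' : Sᵒᵖ ⥤ Type u) : Sᵒᵖ ⥤ Type u where
  obj c := K.obj c × K'.obj c
  map g := ↾fun z => (K.map g z.1, K'.map g z.2)
  map_id c := by
    refine ConcreteCategory.hom_ext _ _ (fun z => ?_)
    exact Prod.ext (by change K.map (𝟙 c) z.1 = z.1; simp) (by change K'.map (𝟙 c) z.2 = z.2; simp)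
  map_comp f g := by
    refine ConcreteCategory.hom_ext _ _ (fun z => ?_)
    exact Prod.ext (Functor.map_comp_apply _ _ _ _) (Functor.map_comp_apply _ _ _ _)

/-- The terminal presheaf. -/
def unitP (S : Type u) [SmallCategory S] : Sᵒᵖ ⥤ Type u where
  obj _ := PUnit
  map _ := 𝟙 _

/-- The terminal presheaf is contractible. -/
def contrUnit : Contr C (unitP S) where
  b _ := PUnit.unit
  b_map _ := rfl
  h _ _ _ := PUnit.unit
  nat _ _ _ := rfl
  h₀ _ _ := rfl
  h₁ _ _ := rfl

variable {C}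

/-- Products of contractible presheaves are contractible. -/
def Contr.prod {K K' : Sᵒᵖ ⥤ Type u} (H : Contr C K) (H' : Contr C K') :
    Contr C (prodP K K') where
  b c := (H.b c, H'.b c)
  b_map g := Prod.ext (H.b_map g) (H'.b_map g)
  h c z i := (H.h c z.1 i, H'.h c z.2 i)
  nat g z i := Prod.ext (H.nat g z.1 i) (H'.nat g z.2 i)
  h₀ c z := Prod.ext (H.h₀ c z.1) (H'.h₀ c z.2)
  h₁ c z := Prod.ext (H.h₁ c z.1) (H'.h₁ c z.2)

/-- Partial families of elements. -/
def KP (X : Sᵒᵖ ⥤ Type u) : Sᵒᵖ ⥤ Type u where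
  obj c := ∀ (c' : Sᵒᵖ), (c ⟶ c') → Option (X.obj c')
  map f := ↾fun a c' g => a c' (f ≫ g)
  map_id n := by
    refine ConcreteCategory.hom_ext _ _ (fun a => ?_)
    funext m g
    change a m (𝟙 n ≫ g) = a m g
    rw [Category.id_comp]
  map_comp f g := by
    refine ConcreteCategory.hom_ext _ _ (fun a => ?_)
    funext m h
    change a m ((f ≫ g) ≫ h) = a m (f ≫ g ≫ h)
    rw [Category.assoc]

/-- Functoriality of `KP`. -/
def KP.map {X X' : Sᵒᵖ ⥤ Type u} (f : X ⟶ X') : KP X ⟶ KP X' where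
  app c := ↾fun a c' g => (a c' g).map (f.app c')
  naturality c c' g := by
    refine ConcreteCategory.hom_ext _ _ (fun a => ?_)
    rfl

/-- The embedding of `X` into `KP X`. -/
def KP.eta (X : Sᵒᵖ ⥤ Type u) : X ⟶ KP X where
  app c := ↾fun x c' g => some (X.map g x)
  naturality c c' f := by
    refine ConcreteCategory.hom_ext _ _ (fun x => ?_)
    funext k g
    change some (X.map g (X.map f x)) = some (X.map (f ≫ g) x)
    rw [Functor.map_comp_apply]

lemma KP.eta_injective (X : Sᵒᵖ ⥤ Type u) (c : Sᵒᵖ) :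
    Function.Injective ((KP.eta X).app c) := by
  intro x y h
  have h2 : some (X.map (𝟙 c) x) = some (X.map (𝟙 c) y) := congrFun (congrFun h c) (𝟙 c)
  simpa using h2

lemma KP.eta_naturality {X X' : Sᵒᵖ ⥤ Type u} (f : X ⟶ X') :
    f ≫ KP.eta X' = KP.eta X ≫ KP.map f := by
  ext c x
  funext c' g
  change some (X'.map g (f.app c x)) = some (f.app c' (X.map g x))
  rw [NatTrans.naturality_apply]

variable (C)

open Classical in
/-- The contraction of `KP X`. -/
noncomputable def KP.contr (X : Sᵒᵖ ⥤ Type u) : Contr C (KP X) where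
  b _ _ _ := none
  b_map _ := rfl
  h c a i := fun c' g => if C.I.map g i = C.pt false c' then a c' g else none
  nat {c c'} f a i := by
    funext k g
    change (if C.I.map (f ≫ g) i = C.pt false k then a k (f ≫ g) else none) =
      if C.I.map g (C.I.map f i) = C.pt false k then a k (f ≫ g) else none
    rw [Functor.map_comp_apply]
  h₀ c a := by
    funext k g
    rw [C.pt_map, if_pos rfl]
  h₁ c a := by
    funext k g
    rw [C.pt_map, if_neg (C.pt_ne k)]

/-- Product projections with contractible fibre. -/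
def IsF {Z Y : Sᵒᵖ ⥤ Type u} (q : Z ⟶ Y) : Prop :=
  ∃ (K : Sᵒᵖ ⥤ Type u) (_ : Contr C K) (k : Z ⟶ K),
    ∀ c, Function.Bijective (fun z : Z.obj c => (q.app c z, k.app c z))

variable {C}

lemma IsF.isWeq {Z Y : Sᵒᵖ ⥤ Type u} {q : Z ⟶ Y} (hq : IsF C q) :
    IsWeq (nerveMap (El.map q)) := by
  obtain ⟨K, H, k, hb⟩ := hq
  let E : ∀ c, Z.obj c ≃ Y.obj c × K.obj c := fun c => Equiv.ofBijective _ (hb c)
  have hE1 : ∀ c y, q.app c ((E c).symm y) = y.1 := fun c y =>
    congrArg Prod.fst ((E c).apply_symm_apply y)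
  have hE2 : ∀ c y, k.app c ((E c).symm y) = y.2 := fun c y =>
    congrArg Prod.snd ((E c).apply_symm_apply y)
  have hext : ∀ c (z z' : Z.obj c), q.app c z = q.app c z' → k.app c z = k.app c z' → z = z' :=
    fun c z z' h1 h2 => (hb c).1 (Prod.ext h1 h2)
  let s : Y ⟶ Z :=
    { app := fun c => ↾fun y => (E c).symm (y, H.b c)
      naturality := by
        intro c c' g
        refine ConcreteCategory.hom_ext _ _ (fun y => ?_)
        apply hext
        · change q.app c' ((E c').symm (Y.map g y, H.b c')) =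
            q.app c' (Z.map g ((E c).symm (y, H.b c)))
          rw [hE1, NatTrans.naturality_apply, hE1]
        · change k.app c' ((E c').symm (Y.map g y, H.b c')) =
            k.app c' (Z.map g ((E c).symm (y, H.b c)))
          rw [hE2, NatTrans.naturality_apply, hE2, H.b_map] }
  have hs : s ≫ q = 𝟙 Y := by
    ext c y
    exact hE1 c _
  let HH : IHomotopy C (𝟙 Z) (q ≫ s) :=
    { h := fun c z i => (E c).symm (q.app c z, H.h c (k.app c z) i)
      nat := by
        intro c c' g z i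
        apply hext
        · rw [hE1, NatTrans.naturality_apply, hE1, NatTrans.naturality_apply]
        · rw [hE2, NatTrans.naturality_apply, hE2]
          change K.map g (H.h c (k.app c z) i) = H.h c' (k.app c' (Z.map g z)) (C.I.map g i)
          rw [H.nat, NatTrans.naturality_apply]
      h₀ := by
        intro c z
        apply hext
        · rw [hE1]; rfl
        · rw [hE2, H.h₀]; rfl
      h₁ := by
        intro c z
        apply hext
        · rw [hE1]
          change _ = q.app c ((E c).symm (q.app c z, H.b c))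
          rw [hE1]
        · rw [hE2, H.h₁]
          change _ = k.app c ((E c).symm (q.app c z, H.b c))
          rw [hE2] }
  apply IsWeq.of_homotopyInverse (nerveMap (El.map s))
  · exact HH.khomotopic.symm
  · have : nerveMap (El.map s) ≫ nerveMap (El.map q) = nerveMap (El.map (s ≫ q)) := rfl
    rw [this, hs]
    exact KHomotopic.refl _

lemma IsF.wcp_iff {Z Y : Sᵒᵖ ⥤ Type u} {q : Z ⟶ Y} (hq : IsF C q) : WCP Z ↔ WCP Y :=
  ⟨fun h => WC.of_isWeq' hq.isWeq h, fun h => WC.of_isWeq hq.isWeq h⟩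

lemma IsF.of_bijective {Z Y : Sᵒᵖ ⥤ Type u} (q : Z ⟶ Y)
    (hq : ∀ c, Function.Bijective (q.app c)) : IsF C q := by
  refine ⟨unitP S, contrUnit C, { app := fun c => ↾fun _ => PUnit.unit }, fun c => ⟨?_, ?_⟩⟩
  · intro z z' h
    exact (hq c).1 (congrArg Prod.fst h)
  · rintro ⟨y, ⟨⟩⟩
    obtain ⟨z, rfl⟩ := (hq c).2 y
    exact ⟨z, rfl⟩

lemma IsF.comp {Z Y X : Sᵒᵖ ⥤ Type u} {q : Z ⟶ Y} {p : Y ⟶ X} (hq : IsF C q)
    (hp : IsF C p) : IsF C (q ≫ p) := by
  obtain ⟨K, H, k, hb⟩ := hq
  obtain ⟨K', H', k', hb'⟩ := hp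
  refine ⟨prodP K K', H.prod H', { app := fun c => ↾fun z => (k.app c z, k'.app c (q.app c z)),
                                   naturality := ?_ }, fun c => ⟨?_, ?_⟩⟩
  · intro c c' g
    refine ConcreteCategory.hom_ext _ _ (fun z => ?_)
    apply Prod.ext
    · exact NatTrans.naturality_apply k g z
    · change k'.app c' (q.app c' (Z.map g z)) = K'.map g (k'.app c (q.app c z))
      rw [NatTrans.naturality_apply, NatTrans.naturality_apply]
  · intro z z' h
    have h1 : p.app c (q.app c z) = p.app c (q.app c z') := congrArg Prod.fst h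
    have h2 : k.app c z = k.app c z' := congrArg (fun t => t.2.1) h
    have h3 : k'.app c (q.app c z) = k'.app c (q.app c z') := congrArg (fun t => t.2.2) h
    have h4 : q.app c z = q.app c z' := (hb' c).1 (Prod.ext h1 h3)
    exact (hb c).1 (Prod.ext h4 h2)
  · rintro ⟨x, a, a'⟩
    obtain ⟨y, hy⟩ := (hb' c).2 (x, a')
    obtain ⟨z, hz⟩ := (hb c).2 (y, a)
    have hy1 : p.app c y = x := congrArg Prod.fst hy
    have hy2 : k'.app c y = a' := congrArg Prod.snd hy
    have hz1 : q.app c z = y := congrArg Prod.fst hz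
    have hz2 : k.app c z = a := congrArg Prod.snd hz
    refine ⟨z, ?_⟩
    apply Prod.ext
    · change p.app c (q.app c z) = x
      rw [hz1, hy1]
    · apply Prod.ext
      · exact hz2
      · change k'.app c (q.app c z) = a'
        rw [hz1, hy2]

end Pool.Agent.K4H28.WHE
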