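import Pool.Agent.K4H28.WHE.Cone

/-!
# Maps with weakly contractible fibres, over a simplex
-/

open CategoryTheory MonoidalCategory CartesianMonoidalCategory Simplicial
  HomotopicalAlgebra Limits Opposite

universe v u

namespace Pool.Agent.K4H28.WHE

open SSet SSet.modelCategoryQuillen

instance : acyc.{u}.IsStableUnderCobaseChange := by
  unfold acyc; infer_instance

instance : acyc.{u}.IsMultiplicative := by
  unfold acyc; infer_instance

lemma acyc_of_isIso {X Y : SSet.{u}} (f : X ⟶ Y) [IsIso f] : acyc f := by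
  apply acyc_of_isWeq
  exact IsWeq.of_iso f

lemma mono_whiskerRight {U V : SSet.{u}} (e : U ⟶ V) [Mono e] (Z : SSet.{u}) :
    Mono (e ▷ Z) := by
  have he : ∀ n, Function.Injective (e.app n) := fun n =>
    (mono_iff_injective _).1 inferInstance
  have : ∀ n, Mono ((e ▷ Z).app n) := fun n => by
    rw [mono_iff_injective]
    rintro ⟨a, b⟩ ⟨a', b'⟩ h
    have h1 : e.app n a = e.app n a' := congrArg Prod.fst h
    have h2 : b = b' := congrArg Prod.snd h
    rw [he n h1, h2]
  exact NatTrans.mono_of_mono_app _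

variable {X Y : SSet.{u}} (p : X ⟶ Y)

/-- The graph of the fibre of `p` over `l`, as a subcomplex of `L ⊗ K X`. -/
def fib {L : SSet.{u}} (l : L ⟶ Y) : (L ⊗ K X).Subcomplex :=
  (Subcomplex.range (lift p (eta X))).preimage (l ▷ K X)

lemma fib_comp {L L' : SSet.{u}} (e : L' ⟶ L) (l : L ⟶ Y) :
    fib p (e ≫ l) = (fib p l).preimage (e ▷ K X) := rfl

lemma isIso_fromPreimage {U V : SSet.{u}} (f : U ⟶ V) [Mono f] (B : V.Subcomplex)
    (hB : B ≤ Subcomplex.range f) : IsIso (B.fromPreimage f) := by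
  have h1 : Mono (B.fromPreimage f) := by
    have : Mono (B.fromPreimage f ≫ B.ι) := by
      rw [Subcomplex.fromPreimage_ι]
      infer_instance
    exact mono_of_mono _ B.ι
  have h2 : Epi (B.fromPreimage f) := by
    rw [← Subcomplex.range_eq_top_iff, eq_top_iff]
    rintro n ⟨y, hy⟩ -
    obtain ⟨x, rfl⟩ := hB _ hy
    exact ⟨⟨x, hy⟩, rfl⟩
  exact isIso_of_mono_of_epi _

lemma WC_of_preimage {U V : SSet.{u}} (f : U ⟶ V) [Mono f] (B : V.Subcomplex)
    (hB : B ≤ Subcomplex.range f) (h : WC (B.preimage f : SSet.{u})) : WC (B : SSet.{u}) := by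
  have := isIso_fromPreimage f B hB
  exact WC.of_isWeq' (IsWeq.of_iso (B.fromPreimage f)) h

section simplex

variable {n : ℕ} (σ : Δ[n] ⟶ Y)

/-- The union of the part over `S` and the fibre. -/
def A (S : (Δ[n] : SSet.{u}).Subcomplex) : ((Δ[n] : SSet.{u}) ⊗ K X).Subcomplex :=
  S.prod ⊤ ⊔ fib p σ

lemma fib_le_A (S : (Δ[n] : SSet.{u}).Subcomplex) : fib p σ ≤ A p σ S := le_sup_right

/-- The induction hypothesis. -/
def Q (S : (Δ[n] : SSet.{u}).Subcomplex) : Prop :=
  acyc (Subcomplex.homOfLE (fib_le_A p σ S))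

lemma Q_bot : Q p σ ⊥ := by
  have h : A p σ ⊥ = fib p σ := by
    apply le_antisymm _ (fib_le_A p σ _)
    apply sup_le _ le_rfl
    rintro m x hx
    exact hx.1.elim
  have : IsIso (Subcomplex.homOfLE (fib_le_A p σ ⊥)) := by
    refine ⟨Subcomplex.homOfLE h.le, rfl, rfl⟩
  exact acyc_of_isIso _

lemma Q_face (h : ∀ (k : ℕ) (τ : Δ[k] ⟶ Y), WC (fib p τ : SSet.{u}))
    (F : Finset (Fin (n + 1))) : Q p σ (stdSimplex.face F) := by
  by_cases hF : F = ∅
  · rw [hF, stdSimplex.face_empty]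
    exact Q_bot p σ
  · obtain ⟨k, hk⟩ : ∃ k, F.card = k + 1 :=
      Nat.exists_eq_succ_of_ne_zero (fun h => hF (Finset.card_eq_zero.1 h))
    let ε : Δ[k] ≅ (stdSimplex.face.{u} F : SSet.{u}) :=
      stdSimplex.isoOfRepresentableBy (stdSimplex.faceRepresentableBy F k
        (F.orderIsoOfFin hk))
    let e : Δ[k] ⟶ Δ[n] := ε.hom ≫ (stdSimplex.face.{u} F).ι
    have he : Subcomplex.range e = stdSimplex.face.{u} F := by
      apply le_antisymm
      · rintro m _ ⟨x, rfl⟩
        exact (ε.hom.app m x).2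
      · rintro m x hx
        refine ⟨ε.inv.app m ⟨x, hx⟩, ?_⟩
        have := congrArg (fun φ => (φ.app m ⟨x, hx⟩ : (Δ[n] : SSet.{u}).obj m))
          (show ε.inv ≫ e = (stdSimplex.face.{u} F).ι by simp [e])
        exact this
    have he' : Mono e := mono_comp _ _
    have hm : Mono (e ▷ K X) := mono_whiskerRight e _
    have hW1 : WC (((stdSimplex.face.{u} F).prod ⊤ ⊓ fib p σ :
        ((Δ[n] : SSet.{u}) ⊗ K X).Subcomplex) : SSet.{u}) := by
      refine WC_of_preimage (e ▷ K X) _ ?_ ?_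
      · rintro m ⟨x, y⟩ hx
        have h1 : x ∈ (stdSimplex.face.{u} F).obj m := hx.1.1
        rw [← he] at h1
        obtain ⟨z, rfl⟩ := h1
        exact ⟨(z, y), rfl⟩
      · have : ((stdSimplex.face.{u} F).prod ⊤ ⊓ fib p σ).preimage (e ▷ K X) =
            fib p (e ≫ σ) := by
          rw [fib_comp]
          apply le_antisymm
          · intro m x hx
            exact hx.2
          · intro m x hx
            refine ⟨⟨?_, trivial⟩, hx⟩
            rw [← he]
            exact ⟨x.1, rfl⟩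
        rw [this]
        exact h k (e ≫ σ)
    have hW2 : WC ((stdSimplex.face.{u} F).prod ⊤ :
        ((Δ[n] : SSet.{u}) ⊗ K X).Subcomplex) := by
      refine WC_of_preimage (e ▷ K X) _ ?_ ?_
      · rintro m ⟨x, y⟩ hx
        have h1 : x ∈ (stdSimplex.face.{u} F).obj m := hx.1
        rw [← he] at h1
        obtain ⟨z, rfl⟩ := h1
        exact ⟨(z, y), rfl⟩
      · have : ((stdSimplex.face.{u} F).prod ⊤).preimage (e ▷ K X) = ⊤ := by
          rw [eq_top_iff]
          intro m x hx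
          refine ⟨?_, trivial⟩
          rw [← he]
          exact ⟨x.1, rfl⟩
        rw [this]
        apply WC.of_isWeq (IsWeq.of_iso (Subcomplex.topIso _).hom)
        exact WC.of_isWeq (isWeq_fst_K X Δ[k]) (WC_stdSimplex k)
    have sq : Subcomplex.BicartSq ((stdSimplex.face.{u} F).prod ⊤ ⊓ fib p σ)
      ((stdSimplex.face.{u} F).prod ⊤) (fib p σ) (A p σ (stdSimplex.face.{u} F)) := ⟨rfl, rfl⟩
    exact MorphismProperty.of_isPushout (P := acyc) sq.isPushout.flip
      (acyc_of_isWeq _ (IsWeq.of_WC _ hW1 hW2))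

lemma A_mono {S S' : (Δ[n] : SSet.{u}).Subcomplex} (h : S ≤ S') : A p σ S ≤ A p σ S' :=
  sup_le_sup_right (Subcomplex.prod_monotone h le_rfl) _

lemma acyc_A {S S' : (Δ[n] : SSet.{u}).Subcomplex} (h : S ≤ S') (h1 : Q p σ S)
    (h2 : Q p σ S') : acyc (Subcomplex.homOfLE (A_mono p σ h)) := by
  apply acyc_of_isWeq
  apply IsWeq.of_comp_left h1.isWeq
  exact h2.isWeq

lemma Q_sup {S F : (Δ[n] : SSet.{u}).Subcomplex} (hS : Q p σ S) (hF : Q p σ F)
    (hSF : Q p σ (S ⊓ F)) : Q p σ (S ⊔ F) := by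
  have sq : Subcomplex.BicartSq (A p σ (S ⊓ F)) (A p σ F) (A p σ S) (A p σ (S ⊔ F)) := by
    constructor
    · apply le_antisymm
      · exact sup_le (A_mono p σ le_sup_right) (A_mono p σ le_sup_left)
      · rintro m x (hx | hx)
        · rcases hx.1 with h | h
          · exact Or.inr (Or.inl ⟨h, hx.2⟩)
          · exact Or.inl (Or.inl ⟨h, hx.2⟩)
        · exact Or.inl (Or.inr hx)
    · apply le_antisymm
      · rintro m x ⟨h1 | h1, h2 | h2⟩
        · exact Or.inl ⟨⟨h2.1, h1.1⟩, h1.2⟩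
        · exact Or.inr h2
        · exact Or.inr h1
        · exact Or.inr h1
      · exact le_inf (A_mono p σ inf_le_right) (A_mono p σ inf_le_left)
  have h1 := MorphismProperty.of_isPushout (P := acyc) sq.isPushout.flip
    (acyc_A p σ inf_le_right hSF hF)
  exact acyc.comp_mem _ _ hS h1

/-- A finite union of faces. -/
def U : List (Finset (Fin (n + 1))) → (Δ[n] : SSet.{u}).Subcomplex
  | [] => ⊥
  | F :: l => U l ⊔ stdSimplex.face F

lemma U_inf (l : List (Finset (Fin (n + 1)))) (F : Finset (Fin (n + 1))) :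
    (U l ⊓ stdSimplex.face F : (Δ[n] : SSet.{u}).Subcomplex) = U (l.map (fun G => G ⊓ F)) := by
  induction l with
  | nil => simp [U]
  | cons G l ih =>
    simp only [U, List.map_cons, ← ih, ← stdSimplex.face_inter_face]
    apply le_antisymm
    · rintro m x ⟨h1 | h1, h2⟩
      · exact Or.inl ⟨h1, h2⟩
      · exact Or.inr ⟨h1, h2⟩
    · rintro m x (h | h)
      · exact ⟨Or.inl h.1, h.2⟩
      · exact ⟨Or.inr h.1, h.2⟩

lemma Q_U (h : ∀ (k : ℕ) (τ : Δ[k] ⟶ Y), WC (fib p τ : SSet.{u})) (k : ℕ) :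
    ∀ l : List (Finset (Fin (n + 1))), l.length = k → Q p σ (U l) := by
  induction k with
  | zero =>
    intro l hl
    rw [List.length_eq_zero_iff] at hl
    subst hl
    exact Q_bot p σ
  | succ k ih =>
    intro l hl
    cases l with
    | nil => simp at hl
    | cons F l =>
      have hl' : l.length = k := by simpa using hl
      apply Q_sup p σ (ih l hl') (Q_face p σ h F)
      rw [U_inf]
      exact ih _ (by simpa using hl')

lemma mem_U_iff (l : List (Finset (Fin (n + 1)))) {m : SimplexCategoryᵒᵖ}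
    (x : (Δ[n] : SSet.{u}).obj m) :
    x ∈ (U l).obj m ↔ ∃ F ∈ l, x ∈ (stdSimplex.face.{u} F).obj m := by
  induction l with
  | nil => simp [U]
  | cons F l ih =>
    simp only [List.mem_cons, exists_eq_or_imp, ← ih, U]
    exact Or.comm

lemma boundary_eq_U : ∃ l : List (Finset (Fin (n + 1))), boundary.{u} n = U l := by
  refine ⟨(List.finRange (n + 1)).map (fun i => {i}ᶜ), ?_⟩
  rw [boundary_eq_iSup]
  apply le_antisymm
  · refine iSup_le fun i m x hx => ?_
    rw [mem_U_iff]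
    exact ⟨_, List.mem_map.2 ⟨i, List.mem_finRange i, rfl⟩, hx⟩
  · intro m x hx
    rw [mem_U_iff] at hx
    obtain ⟨F, hF, hx⟩ := hx
    obtain ⟨i, -, rfl⟩ := List.mem_map.1 hF
    exact le_iSup (fun (i : Fin (n +1)) ↦ stdSimplex.face {i}ᶜ) i _ hx

lemma acyc_A_boundary (h : ∀ (k : ℕ) (τ : Δ[k] ⟶ Y), WC (fib p τ : SSet.{u})) :
    acyc (A p σ (boundary.{u} n)).ι := by
  obtain ⟨l, hl⟩ := boundary_eq_U.{u} (n := n)
  have h1 : Q p σ (boundary.{u} n) := by
    rw [hl]
    exact Q_U p σ h _ l rfl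
  apply acyc_of_isWeq
  apply IsWeq.of_comp_left h1.isWeq
  rw [Subcomplex.homOfLE_ι]
  apply IsWeq.of_WC _ (h n σ)
  exact WC.of_isWeq (isWeq_fst_K X Δ[n]) (WC_stdSimplex n)

end simplex

end Pool.Agent.K4H28.WHE
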