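import Pool.Agent.K4H28.WHE.World
import Mathlib.CategoryTheory.InducedCategory
import Mathlib.CategoryTheory.Widesubcategory
import Mathlib.CategoryTheory.Limits.Preserves.Shapes.Pullbacks
import Mathlib.CategoryTheory.MorphismProperty.Limits

/-!
# Limits, colimits and factorizations in the category of weakly contractible presheaves
-/

open CategoryTheory Opposite Limits

universe u

namespace Pool.Agent.K4H28.WHE

variable {S : Type u} [SmallCategory S]

/-- Functoriality of the factorization object. -/
def facMap {X X' Y Y' : Sᵒᵖ ⥤ Type u} (l : X ⟶ X') (r : Y ⟶ Y') :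
    prodP Y (KP X) ⟶ prodP Y' (KP X') where
  app c := ↾fun z => (r.app c z.1, (KP.map l).app c z.2)
  naturality c c' g := by
    refine ConcreteCategory.hom_ext _ _ (fun z => ?_)
    apply Prod.ext
    · exact NatTrans.naturality_apply r g z.1
    · exact NatTrans.naturality_apply (KP.map l) g z.2

/-- First part of the factorization. -/
def facI {X Y : Sᵒᵖ ⥤ Type u} (f : X ⟶ Y) : X ⟶ prodP Y (KP X) where
  app c := ↾fun x => (f.app c x, (KP.eta X).app c x)
  naturality c c' g := by
    refine ConcreteCategory.hom_ext _ _ (fun z => ?_)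
    apply Prod.ext
    · exact NatTrans.naturality_apply f g z
    · exact NatTrans.naturality_apply (KP.eta X) g z

/-- Second part of the factorization. -/
def facP (X Y : Sᵒᵖ ⥤ Type u) : prodP Y (KP X) ⟶ Y where
  app c := ↾fun z => z.1

lemma facI_facP {X Y : Sᵒᵖ ⥤ Type u} (f : X ⟶ Y) : facI f ≫ facP X Y = f := rfl

lemma facMap_id (X Y : Sᵒᵖ ⥤ Type u) : facMap (𝟙 X) (𝟙 Y) = 𝟙 _ := by
  refine NatTrans.ext (funext fun c => ?_)
  refine ConcreteCategory.hom_ext _ _ (fun z => ?_)
  apply Prod.ext
  · rfl
  · funext c' g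
    change Option.map _ (z.2 c' g) = z.2 c' g
    cases z.2 c' g <;> rfl

lemma facMap_comp {X X' X'' Y Y' Y'' : Sᵒᵖ ⥤ Type u} (l : X ⟶ X') (l' : X' ⟶ X'')
    (r : Y ⟶ Y') (r' : Y' ⟶ Y'') :
    facMap (l ≫ l') (r ≫ r') = facMap l r ≫ facMap l' r' := by
  refine NatTrans.ext (funext fun c => ?_)
  refine ConcreteCategory.hom_ext _ _ (fun z => ?_)
  apply Prod.ext
  · rfl
  · funext c' g
    change Option.map _ (z.2 c' g) = Option.map _ (Option.map _ (z.2 c' g))
    cases z.2 c' g <;> rfl

lemma facMap_facP {X X' Y Y' : Sᵒᵖ ⥤ Type u} (l : X ⟶ X') (r : Y ⟶ Y') :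
    facMap l r ≫ facP X' Y' = facP X Y ≫ r := rfl

lemma facI_facMap {X X' Y Y' : Sᵒᵖ ⥤ Type u} (f : X ⟶ Y) (f' : X' ⟶ Y') (l : X ⟶ X')
    (r : Y ⟶ Y') (h : l ≫ f' = f ≫ r) : facI f ≫ facMap l r = l ≫ facI f' := by
  refine NatTrans.ext (funext fun c => ?_)
  refine ConcreteCategory.hom_ext _ _ (fun x => ?_)
  apply Prod.ext
  · have : (l ≫ f').app c = (f ≫ r).app c := by rw [h]
    exact (ConcreteCategory.congr_hom this x).symm
  · have : (l ≫ KP.eta X').app c = (KP.eta X ≫ KP.map l).app c := by rw [KP.eta_naturality]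
    exact (ConcreteCategory.congr_hom this x).symm

variable {C : Cyl S} (W : WData C)

/-- The category of weakly contractible presheaves. -/
abbrev WCat : Type u := InducedCategory (Sᵒᵖ ⥤ Type u) W.φ

/-- Acyclic cofibrations: monomorphisms of presheaves. -/
def cofW : MorphismProperty (WCat W) := fun _ _ f => ∀ c, Function.Injective (f.hom.app c)

/-- Acyclic fibrations: projections with contractible fibre. -/
def fibW : MorphismProperty (WCat W) := fun _ _ f => IsF C f.hom

variable {W}

lemma exists_pushoutW {X Y Z : WCat W} (f : X ⟶ Y) (g : X ⟶ Z) (hf : cofW W f) :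
    ∃ (P : WCat W) (g' : Y ⟶ P) (f' : Z ⟶ P), IsPushout f g g' f' ∧ cofW W f' := by
  obtain ⟨o, ⟨e⟩⟩ := W.push f.hom g.hom hf
  have h : IsPushout f.hom g.hom (pushout.inl f.hom g.hom ≫ e.inv)
      (pushout.inr f.hom g.hom ≫ e.inv) :=
    (IsPushout.of_hasPushout f.hom g.hom).of_iso (Iso.refl _) (Iso.refl _) (Iso.refl _) e.symm
      (by simp) (by simp) (by simp) (by simp)
  refine ⟨o, InducedCategory.homMk (pushout.inl f.hom g.hom ≫ e.inv),
    InducedCategory.homMk (pushout.inr f.hom g.hom ≫ e.inv), ?_, ?_⟩
  · exact IsPushout.of_map (inducedFunctor W.φ) (by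
      apply InducedCategory.hom_ext
      exact h.w) h
  · intro c
    have h' := h.map ((evaluation _ _).obj c)
    exact Types.pushoutCocone_inr_injective_of_isColimit h'.isColimit (hf c)

lemma exists_pullbackW {X Y Z : WCat W} (f : X ⟶ Z) (g : Y ⟶ Z) (hf : fibW W f) :
    ∃ (P : WCat W) (g' : P ⟶ X) (f' : P ⟶ Y), IsPullback g' f' f g ∧ fibW W f' := by
  obtain ⟨o, ⟨e⟩⟩ := W.pull f.hom g.hom hf
  have h : IsPullback (e.hom ≫ pullback.fst f.hom g.hom) (e.hom ≫ pullback.snd f.hom g.hom)
      f.hom g.hom :=
    (IsPullback.of_hasPullback f.hom g.hom).of_iso e.symm (Iso.refl _) (Iso.refl _) (Iso.refl _)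
      (by simp) (by simp) (by simp) (by simp)
  refine ⟨o, InducedCategory.homMk (e.hom ≫ pullback.fst f.hom g.hom),
    InducedCategory.homMk (e.hom ≫ pullback.snd f.hom g.hom), ?_, ?_⟩
  · exact IsPullback.of_map (inducedFunctor W.φ) (by
      apply InducedCategory.hom_ext
      exact h.w) h
  · exact IsF.of_isPullback C h hf

lemma cofW_pushout {X Y Z P : WCat W} {f : X ⟶ Y} {g : X ⟶ Z} {g' : Y ⟶ P} {f' : Z ⟶ P}
    (h : IsPushout f g g' f') (hf : cofW W f) : cofW W f' := by
  obtain ⟨P', g'', f'', h', hf''⟩ := exists_pushoutW f g hf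
  have h1 : f'' ≫ (h'.isoIsPushout _ _ h).hom = f' := h'.inr_isoIsPushout_hom _ _ h
  intro c
  rw [← h1]
  have h2 : Function.Injective ((h'.isoIsPushout _ _ h).hom.hom.app c) := by
    have h3 : IsIso ((inducedFunctor W.φ).map (h'.isoIsPushout _ _ h).hom) := inferInstance
    have h4 : IsIso (((inducedFunctor W.φ).map (h'.isoIsPushout _ _ h).hom).app c) :=
      inferInstance
    exact ((isIso_iff_bijective _).1 h4).1
  exact h2.comp (hf'' c)

lemma fibW_pullback {X Y Z P : WCat W} {f : X ⟶ Z} {g : Y ⟶ Z} {g' : P ⟶ X} {f' : P ⟶ Y}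
    (h : IsPullback g' f' f g) (hf : fibW W f) : fibW W f' := by
  obtain ⟨P', g'', f'', h', hf''⟩ := exists_pullbackW f g hf
  have h1 : (h.isoIsPullback _ _ h').hom ≫ f'' = f' := h.isoIsPullback_hom_snd _ _ h'
  rw [← h1]
  apply IsF.comp _ hf''
  apply IsF.of_bijective
  intro c
  have h3 : IsIso ((inducedFunctor W.φ).map (h.isoIsPullback _ _ h').hom) := inferInstance
  have h4 : IsIso (((inducedFunctor W.φ).map (h.isoIsPullback _ _ h').hom).app c) :=
    inferInstance
  exact (isIso_iff_bijective _).1 h4

instance : (cofW W).IsMultiplicative where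
  id_mem _ := fun _ => Function.injective_id
  comp_mem _ _ hf hg := fun c => (hg c).comp (hf c)

instance : (fibW W).IsMultiplicative where
  id_mem _ := IsF.of_bijective _ (fun _ => Function.bijective_id)
  comp_mem _ _ hf hg := IsF.comp hf hg

variable (W)

/-- The chosen factorization objects. -/
noncomputable def facObj (X Y : WCat W) : WCat W := (W.fac X Y).choose

/-- The chosen isomorphisms. -/
noncomputable def facIso (X Y : WCat W) :
    W.φ (facObj W X Y) ≅ prodP (W.φ Y) (KP (W.φ X)) := (W.fac X Y).choose_spec.some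

/-- The functorial factorization. -/
noncomputable def factData (P : MorphismProperty (WCat W)) [P.IsMultiplicative]
    (hP : ∀ {X Y : WCat W} (f : X ⟶ Y), P f) :
    MorphismProperty.FunctorialFactorizationData
      ((cofW W).inverseImage (wideSubcategoryInclusion P))
      ((fibW W).inverseImage (wideSubcategoryInclusion P)) where
  Z :=
    { obj := fun a => ⟨facObj W a.left.obj a.right.obj⟩
      map := fun {a b} s => ⟨InducedCategory.homMk ((facIso W a.left.obj a.right.obj).hom ≫
        facMap s.left.hom.hom s.right.hom.hom ≫ (facIso W b.left.obj b.right.obj).inv), by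
          exact hP _⟩
      map_id := fun a => by
        apply WideSubcategory.hom_ext
        apply InducedCategory.hom_ext
        change (facIso W a.left.obj a.right.obj).hom ≫
          facMap (𝟙 (W.φ a.left.obj)) (𝟙 (W.φ a.right.obj)) ≫
            (facIso W a.left.obj a.right.obj).inv = 𝟙 _
        rw [facMap_id]
        simp
      map_comp := fun {a b c} s t => by
        apply WideSubcategory.hom_ext
        apply InducedCategory.hom_ext
        change (facIso W a.left.obj a.right.obj).hom ≫
          facMap (s.left.hom.hom ≫ t.left.hom.hom) (s.right.hom.hom ≫ t.right.hom.hom) ≫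
            (facIso W c.left.obj c.right.obj).inv =
          ((facIso W a.left.obj a.right.obj).hom ≫ facMap s.left.hom.hom s.right.hom.hom ≫
            (facIso W b.left.obj b.right.obj).inv) ≫
          ((facIso W b.left.obj b.right.obj).hom ≫ facMap t.left.hom.hom t.right.hom.hom ≫
            (facIso W c.left.obj c.right.obj).inv)
        rw [facMap_comp]
        simp }
  i :=
    { app := fun a => ⟨InducedCategory.homMk (facI a.hom.hom.hom ≫
        (facIso W a.left.obj a.right.obj).inv), hP _⟩
      naturality := fun a b s => by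
        apply WideSubcategory.hom_ext
        apply InducedCategory.hom_ext
        change s.left.hom.hom ≫ facI b.hom.hom.hom ≫ (facIso W b.left.obj b.right.obj).inv =
          (facI a.hom.hom.hom ≫ (facIso W a.left.obj a.right.obj).inv) ≫
          ((facIso W a.left.obj a.right.obj).hom ≫ facMap s.left.hom.hom s.right.hom.hom ≫
            (facIso W b.left.obj b.right.obj).inv)
        have h : s.left.hom.hom ≫ b.hom.hom.hom = a.hom.hom.hom ≫ s.right.hom.hom :=
          congrArg (fun t => t.hom.hom) s.w
        have := facI_facMap _ _ _ _ h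
        simp [reassoc_of% this] }
  p :=
    { app := fun a => ⟨InducedCategory.homMk ((facIso W a.left.obj a.right.obj).hom ≫
        facP _ _), hP _⟩
      naturality := fun a b s => by
        apply WideSubcategory.hom_ext
        apply InducedCategory.hom_ext
        change ((facIso W a.left.obj a.right.obj).hom ≫ facMap s.left.hom.hom s.right.hom.hom ≫
            (facIso W b.left.obj b.right.obj).inv) ≫
            ((facIso W b.left.obj b.right.obj).hom ≫ facP _ _) =
          ((facIso W a.left.obj a.right.obj).hom ≫ facP _ _) ≫ s.right.hom.hom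
        simp [facMap_facP] }
  fac := by
    apply NatTrans.ext
    funext a
    apply WideSubcategory.hom_ext
    apply InducedCategory.hom_ext
    change (facI a.hom.hom.hom ≫ (facIso W a.left.obj a.right.obj).inv) ≫
      ((facIso W a.left.obj a.right.obj).hom ≫ facP _ _) = a.hom.hom.hom
    simp [facI_facP]
  hi a := by
    intro c x x' h
    have h1 : ((facIso W a.left.obj a.right.obj).inv.app c)
        ((facI a.hom.hom.hom).app c x) = ((facIso W a.left.obj a.right.obj).inv.app c)
        ((facI a.hom.hom.hom).app c x') := h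
    have h4 : IsIso ((facIso W a.left.obj a.right.obj).inv.app c) := inferInstance
    have h2 := ((isIso_iff_bijective _).1 h4).1 h1
    exact KP.eta_injective _ c (congrArg Prod.snd h2)
  hp a := by
    change IsF C ((facIso W a.left.obj a.right.obj).hom ≫ facP _ _)
    apply IsF.comp _ (isF_fst C _ _)
    apply IsF.of_bijective
    intro c
    have h4 : IsIso ((facIso W a.left.obj a.right.obj).hom.app c) := inferInstance
    exact (isIso_iff_bijective _).1 h4

end Pool.Agent.K4H28.WHE
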