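import Pool.Agent.K4H28.WHE.Face

/-!
# Maps with weakly contractible fibres are weak equivalences
-/

open CategoryTheory MonoidalCategory CartesianMonoidalCategory Simplicial
  HomotopicalAlgebra Limits Opposite

universe v u

namespace Pool.Agent.K4H28.WHE

open SSet SSet.modelCategoryQuillen

variable {X Y Z' Z'' : SSet.{u}} (p : X ⟶ Y)

/-- The graph embedding. -/
noncomputable def jj : X ⟶ Y ⊗ K X := lift p (eta X)

lemma jj_app {n : SimplexCategoryᵒᵖ} (x : X.obj n) :
    (jj p).app n x = (p.app n x, (eta X).app n x) := rfl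

instance : Mono (jj p) := by
  have : ∀ n, Mono ((jj p).app n) := fun n => by
    rw [mono_iff_injective]
    intro x y h
    exact eta_app_injective X n (congrArg Prod.snd h)
  exact NatTrans.mono_of_mono_app _

/-- Partial lifts over a simplex. -/
structure LiftObj (a : X ⟶ Z') (b : Y ⊗ K X ⟶ Z'') (q : Z' ⟶ Z'') (n : SimplexCategoryᵒᵖ) where
  /-- the simplex -/
  y : Y.obj n
  /-- the lift -/
  g : ∀ (m : SimplexCategoryᵒᵖ), (n ⟶ m) → (K X).obj m → Z'.obj m
  nat : ∀ (m m' : SimplexCategoryᵒᵖ) (θ : n ⟶ m) (φ : m ⟶ m') (k : (K X).obj m),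
    Z'.map φ (g m θ k) = g m' (θ ≫ φ) ((K X).map φ k)
  ha : ∀ (m : SimplexCategoryᵒᵖ) (θ : n ⟶ m) (x : X.obj m), p.app m x = Y.map θ y →
    g m θ ((eta X).app m x) = a.app m x
  hq : ∀ (m : SimplexCategoryᵒᵖ) (θ : n ⟶ m) (k : (K X).obj m),
    q.app m (g m θ k) = b.app m (Y.map θ y, k)

variable {p}

lemma LiftObj.ext' {a : X ⟶ Z'} {b : Y ⊗ K X ⟶ Z''} {q : Z' ⟶ Z''} {n : SimplexCategoryᵒᵖ}
    {s t : LiftObj p a b q n} (h1 : s.y = t.y) (h2 : ∀ m θ k, s.g m θ k = t.g m θ k) : s = t := by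
  obtain ⟨y, g, _, _, _⟩ := s
  obtain ⟨y', g', _, _, _⟩ := t
  obtain rfl : y = y' := h1
  obtain rfl : g = g' := by
    funext m θ k
    exact h2 m θ k
  rfl

variable (p)

/-- The simplicial set of partial lifts. -/
def LiftS (a : X ⟶ Z') (b : Y ⊗ K X ⟶ Z'') (q : Z' ⟶ Z'') : SSet.{u} where
  obj n := LiftObj p a b q n
  map {n n'} f := ↾fun s =>
    { y := Y.map f s.y
      g := fun m θ k => s.g m (f ≫ θ) k
      nat := fun m m' θ φ k => by rw [s.nat, Category.assoc]
      ha := fun m θ x h => s.ha m (f ≫ θ) x (by rw [h, Functor.map_comp_apply])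
      hq := fun m θ k => by rw [s.hq, Functor.map_comp_apply] }
  map_id n := by
    refine ConcreteCategory.hom_ext _ _ (fun s => ?_)
    apply LiftObj.ext'
    · change Y.map (𝟙 n) s.y = s.y
      simp
    · intro m θ k
      change s.g m (𝟙 n ≫ θ) k = s.g m θ k
      rw [Category.id_comp]
  map_comp f g := by
    refine ConcreteCategory.hom_ext _ _ (fun s => ?_)
    apply LiftObj.ext'
    · exact Functor.map_comp_apply Y f g s.y
    · intro m θ k
      change s.g m ((f ≫ g) ≫ θ) k = s.g m (f ≫ g ≫ θ) k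
      rw [Category.assoc]

/-- The projection. -/
def LiftS.proj (a : X ⟶ Z') (b : Y ⊗ K X ⟶ Z'') (q : Z' ⟶ Z'') : LiftS p a b q ⟶ Y where
  app _ := ↾fun s => s.y
  naturality _ _ _ := rfl

/-- The restriction of `a` to the fibre. -/
noncomputable def fibMap (a : X ⟶ Z') {L : SSet.{u}} (l : L ⟶ Y) :
    (fib p l : SSet.{u}) ⟶ Z' :=
  Subcomplex.fromPreimage (Subcomplex.range (jj p)) (l ▷ K X) ≫
    inv (Subcomplex.toRange (jj p)) ≫ a

lemma fibMap_apply (a : X ⟶ Z') {L : SSet.{u}} (l : L ⟶ Y) {n : SimplexCategoryᵒᵖ}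
    (z : (fib p l).obj n) (x : X.obj n) (h : (jj p).app n x = (l ▷ K X).app n z.1) :
    (fibMap p a l).app n z = a.app n x := by
  have h1 : (Subcomplex.fromPreimage (Subcomplex.range (jj p)) (l ▷ K X)).app n z =
      (Subcomplex.toRange (jj p)).app n x := by
    apply Subtype.ext
    exact h.symm
  have h2 : (fibMap p a l).app n z = a.app n ((inv (Subcomplex.toRange (jj p))).app n
    ((Subcomplex.fromPreimage (Subcomplex.range (jj p)) (l ▷ K X)).app n z)) := rfl
  rw [h2, h1]
  have h3 : (inv (Subcomplex.toRange (jj p))).app n ((Subcomplex.toRange (jj p)).app n x) = x := by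
    have := congrArg (fun φ => φ.app n x) (IsIso.hom_inv_id (Subcomplex.toRange (jj p)))
    exact this
  rw [h3]

/-- The lifting property of the projection with respect to boundary inclusions. -/
lemma hasLiftingProperty_proj (a : X ⟶ Z') (b : Y ⊗ K X ⟶ Z'') (q : Z' ⟶ Z'')
    (w : a ≫ q = jj p ≫ b) (n : ℕ)
    (h : ∀ σ : Δ[n] ⟶ Y, HasLiftingProperty (A p σ (boundary.{u} n)).ι q) :
    HasLiftingProperty (boundary.{u} n).ι (LiftS.proj p a b q) := by
  refine ⟨fun {u v} sq => ?_⟩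
  have hu : ∀ (m : SimplexCategoryᵒᵖ) (θ : (boundary.{u} n).obj m),
      (u.app m θ).y = v.app m θ.1 := fun m θ =>
    congrArg (fun φ => φ.app m θ) sq.w
  have hun : ∀ (m m' : SimplexCategoryᵒᵖ) (φ : m ⟶ m') (θ : (boundary.{u} n).obj m)
      (k : (K X).obj m'),
      (u.app m' (((boundary.{u} n) : SSet.{u}).map φ θ)).g m' (𝟙 m') k =
        (u.app m θ).g m' φ k := by
    intro m m' φ θ k
    have h1 : u.app m' (((boundary.{u} n) : SSet.{u}).map φ θ) =
      (LiftS p a b q).map φ (u.app m θ) := NatTrans.naturality_apply u φ θ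
    rw [h1]
    change (u.app m θ).g m' (φ ≫ 𝟙 m') k = _
    rw [Category.comp_id]
  -- the lift over the boundary
  let u₁ : (((boundary.{u} n).prod (⊤ : (K X).Subcomplex) :
      ((Δ[n] : SSet.{u}) ⊗ K X).Subcomplex) : SSet.{u}) ⟶ Z' :=
    { app := fun m => ↾fun z => (u.app m ⟨z.1.1, z.2.1⟩).g m (𝟙 m) z.1.2
      naturality := by
        intro m m' φ
        refine ConcreteCategory.hom_ext _ _ (fun z => ?_)
        change (u.app m' (((boundary.{u} n) : SSet.{u}).map φ ⟨z.1.1, z.2.1⟩)).g m' (𝟙 m')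
          ((K X).map φ z.1.2) = Z'.map φ ((u.app m ⟨z.1.1, z.2.1⟩).g m (𝟙 m) z.1.2)
        rw [hun, (u.app m ⟨z.1.1, z.2.1⟩).nat, Category.id_comp] }
  have sqA : Subcomplex.BicartSq ((boundary.{u} n).prod (⊤ : (K X).Subcomplex) ⊓ fib p v)
      ((boundary.{u} n).prod (⊤ : (K X).Subcomplex)) (fib p v) (A p v (boundary.{u} n)) :=
    ⟨rfl, rfl⟩
  obtain ⟨t, ht1, ht2⟩ := sqA.isPushout.exists_desc u₁ (fibMap p a v) (by
    ext m z
    obtain ⟨x, hx⟩ : ∃ x : X.obj m, (jj p).app m x = (v ▷ K X).app m z.1 := z.2.2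
    have h2 : (fibMap p a v).app m ⟨z.1, z.2.2⟩ = a.app m x :=
      fibMap_apply p a v ⟨z.1, z.2.2⟩ x hx
    have h3 := (u.app m ⟨z.1.1, z.2.1.1⟩).ha m (𝟙 m) x (by
      rw [hu, Functor.map_id_apply]
      exact congrArg Prod.fst hx)
    have h4 : (eta X).app m x = z.1.2 := congrArg Prod.snd hx
    rw [h4] at h3
    exact h3.trans h2.symm)
  have hsq : CommSq t (A p v (boundary.{u} n)).ι q (v ▷ K X ≫ b) := ⟨by
    apply sqA.isPushout.hom_ext
    · rw [reassoc_of% ht1]
      ext m z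
      have := (u.app m ⟨z.1.1, z.2.1⟩).hq m (𝟙 m) z.1.2
      rw [hu] at this
      simp only [Functor.map_id_apply] at this
      exact this
    · rw [reassoc_of% ht2]
      ext m z
      obtain ⟨x, hx⟩ : ∃ x : X.obj m, (jj p).app m x = (v ▷ K X).app m z.1 := z.2
      have h2 : (fibMap p a v).app m z = a.app m x := fibMap_apply p a v z x hx
      have h3 : q.app m (a.app m x) = b.app m ((jj p).app m x) :=
        congrArg (fun φ => φ.app m x) w
      rw [hx] at h3
      change q.app m ((fibMap p a v).app m z) = b.app m ((v ▷ K X).app m z.1)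
      rw [h2, h3]⟩
  have hl := h v
  obtain ⟨G, hG1, hG2⟩ : ∃ G : (Δ[n] : SSet.{u}) ⊗ K X ⟶ Z',
    (A p v (boundary.{u} n)).ι ≫ G = t ∧ G ≫ q = v ▷ K X ≫ b :=
    ⟨hsq.lift, hsq.fac_left, hsq.fac_right⟩
  have hG1' : ∀ (m : SimplexCategoryᵒᵖ) (θ : (boundary.{u} n).obj m) (k : (K X).obj m),
      G.app m (θ.1, k) = (u.app m θ).g m (𝟙 m) k := by
    intro m θ k
    have h1 := congrArg (fun φ => Subcomplex.homOfLE sqA.le₂₄ ≫ φ) hG1
    simp only [ht1] at h1
    exact congrArg (fun φ => φ.app m ⟨(θ.1, k), ⟨θ.2, trivial⟩⟩) h1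
  have hG3 : ∀ (m : SimplexCategoryᵒᵖ) (θ : (Δ[n] : SSet.{u}).obj m) (x : X.obj m),
      p.app m x = v.app m θ → G.app m (θ, (eta X).app m x) = a.app m x := by
    intro m θ x hx
    have h1 := congrArg (fun φ => Subcomplex.homOfLE sqA.le₃₄ ≫ φ) hG1
    simp only [ht2] at h1
    have hmem : (θ, (eta X).app m x) ∈ (fib p v).obj m := by
      refine ⟨x, ?_⟩
      exact Prod.ext hx rfl
    have h2 := congrArg (fun φ => φ.app m ⟨(θ, (eta X).app m x), hmem⟩) h1
    have h3 : (fibMap p a v).app m ⟨(θ, (eta X).app m x), hmem⟩ = a.app m x :=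
      fibMap_apply p a v _ x (Prod.ext hx rfl)
    rw [h3] at h2
    exact h2
  let W : Δ[n] ⟶ LiftS p a b q :=
    { app := fun m => ↾fun θ =>
        { y := v.app m θ
          g := fun m' φ k => G.app m' ((Δ[n] : SSet.{u}).map φ θ, k)
          nat := by
            intro m' m'' θ' φ k
            have h5 : G.app m'' (((Δ[n] : SSet.{u}) ⊗ K X).map φ
                ((Δ[n] : SSet.{u}).map θ' θ, k)) =
                Z'.map φ (G.app m' ((Δ[n] : SSet.{u}).map θ' θ, k)) :=
              NatTrans.naturality_apply G φ _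
            rw [← h5, Functor.map_comp_apply]
            rfl
          ha := by
            intro m' θ' x hx
            apply hG3
            rw [hx, NatTrans.naturality_apply]
          hq := by
            intro m' θ' k
            have := congrArg (fun φ => φ.app m' ((Δ[n] : SSet.{u}).map θ' θ, k)) hG2
            rw [← NatTrans.naturality_apply]
            exact this }
      naturality := by
        intro m m' φ
        refine ConcreteCategory.hom_ext _ _ (fun θ => ?_)
        apply LiftObj.ext'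
        · exact NatTrans.naturality_apply v φ θ
        · intro m'' ψ k
          change G.app m'' ((Δ[n] : SSet.{u}).map ψ ((Δ[n] : SSet.{u}).map φ θ), k) =
            G.app m'' ((Δ[n] : SSet.{u}).map (φ ≫ ψ) θ, k)
          rw [Functor.map_comp_apply] }
  refine ⟨⟨⟨W, ?_, rfl⟩⟩⟩
  ext m θ
  apply LiftObj.ext'
  · exact (hu m θ).symm
  · intro m' φ k
    have h1 := hG1' m' (((boundary.{u} n) : SSet.{u}).map φ θ) k
    rw [hun] at h1
    exact h1

/-- The graph embedding of a map with weakly contractible fibres is acyclic. -/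
lemma acyc_jj (h : ∀ (k : ℕ) (τ : Δ[k] ⟶ Y), WC (fib p τ : SSet.{u})) : acyc (jj p) := by
  intro Z' Z'' q hq
  refine ⟨fun {a b} sq => ?_⟩
  have h1 : (MorphismProperty.monomorphisms SSet.{u}).rlp (LiftS.proj p a b q) := by
    rw [rlp_monomorphisms]
    rintro _ _ _ ⟨n⟩
    apply hasLiftingProperty_proj p a b q sq.w
    intro σ
    exact acyc_A_boundary p σ h q hq
  have h2 := h1 (initial.to Y) (MorphismProperty.monomorphisms.infer_property _)
  have hsq : CommSq (initial.to _) (initial.to Y) (LiftS.proj p a b q) (𝟙 Y) :=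
    ⟨initialIsInitial.hom_ext _ _⟩
  obtain ⟨s, hs⟩ : ∃ s : Y ⟶ LiftS p a b q, s ≫ LiftS.proj p a b q = 𝟙 Y :=
    ⟨hsq.lift, hsq.fac_right⟩
  have hs' : ∀ (n : SimplexCategoryᵒᵖ) (y : Y.obj n), (s.app n y).y = y := fun n y =>
    congrArg (fun φ => φ.app n y) hs
  let G : Y ⊗ K X ⟶ Z' :=
    { app := fun n => ↾fun z => (s.app n z.1).g n (𝟙 n) z.2
      naturality := by
        intro n m f
        refine ConcreteCategory.hom_ext _ _ (fun z => ?_)
        change (s.app m (Y.map f z.1)).g m (𝟙 m) ((K X).map f z.2) =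
          Z'.map f ((s.app n z.1).g n (𝟙 n) z.2)
        have h3 : s.app m (Y.map f z.1) = (LiftS p a b q).map f (s.app n z.1) :=
          NatTrans.naturality_apply s f z.1
        rw [h3, (s.app n z.1).nat, Category.id_comp]
        change (s.app n z.1).g m (f ≫ 𝟙 m) _ = _
        rw [Category.comp_id] }
  refine ⟨⟨⟨G, ?_, ?_⟩⟩⟩
  · ext n x
    apply (s.app n (p.app n x)).ha n (𝟙 n) x
    rw [hs', Functor.map_id_apply]
  · ext n z
    have h4 := (s.app n z.1).hq n (𝟙 n) z.2
    rw [hs', Functor.map_id_apply] at h4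
    exact h4

/-- A map with weakly contractible fibres is a weak equivalence. -/
theorem isWeq_of_fib (h : ∀ (k : ℕ) (τ : Δ[k] ⟶ Y), WC (fib p τ : SSet.{u})) : IsWeq p :=
  (acyc_jj p h).isWeq.comp (isWeq_fst_K X Y)

/-- A map with weakly contractible fibres is a weak equivalence: pullback version. -/
theorem isWeq_of_fibers (h : ∀ (k : ℕ) (τ : Δ[k] ⟶ Y), ∃ (P : SSet.{u}) (f : P ⟶ Δ[k])
    (g : P ⟶ X), f ≫ τ = g ≫ p ∧
      (∀ (n : SimplexCategoryᵒᵖ) (z z' : P.obj n), f.app n z = f.app n z' →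
        g.app n z = g.app n z' → z = z') ∧
      (∀ (n : SimplexCategoryᵒᵖ) (a : (Δ[k] : SSet.{u}).obj n) (x : X.obj n),
        τ.app n a = p.app n x → ∃ z : P.obj n, f.app n z = a ∧ g.app n z = x) ∧
      WC P) : IsWeq p := by
  apply isWeq_of_fib
  intro k τ
  obtain ⟨P, f, g, w, h1, h2, hW⟩ := h k τ
  have hle : Subcomplex.range (lift f (g ≫ eta X)) ≤ fib p τ := by
    rintro n _ ⟨x, rfl⟩
    refine ⟨g.app n x, ?_⟩
    have := congrArg (fun φ => φ.app n x) w
    exact Prod.ext this.symm rfl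
  have hb : ∀ n, IsIso ((Subcomplex.lift (lift f (g ≫ eta X)) hle).app n) := by
    intro n
    rw [isIso_iff_bijective]
    constructor
    · intro z z' hz
      have h3 := congrArg (fun t => t.1) hz
      exact h1 n z z' (congrArg Prod.fst h3) (eta_app_injective X n (congrArg Prod.snd h3))
    · rintro ⟨⟨a, b⟩, ⟨x, hx⟩⟩
      have h3 : p.app n x = τ.app n a := congrArg Prod.fst hx
      have h4 : (eta X).app n x = b := congrArg Prod.snd hx
      obtain ⟨z, rfl, rfl⟩ := h2 n a x h3.symm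
      refine ⟨z, Subtype.ext ?_⟩
      exact Prod.ext rfl h4
  have : IsIso (Subcomplex.lift (lift f (g ≫ eta X)) hle) := NatIso.isIso_of_isIso_app _
  exact WC.of_isWeq' (IsWeq.of_iso (Subcomplex.lift (lift f (g ≫ eta X)) hle)) hW

end Pool.Agent.K4H28.WHE
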