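import Pool.Agent.K4H28.WHE.Weq

/-!
# Natural transformations give simplicial homotopies
-/

open CategoryTheory MonoidalCategory CartesianMonoidalCategory Simplicial
  HomotopicalAlgebra Limits Opposite

universe v u

namespace Pool.Agent.K4H28.WHE

open SSet SSet.modelCategoryQuillen

/-- A simplex of the interval as a functor. -/
def simplexFunctor {n : SimplexCategoryᵒᵖ} (t : (Δ[1] : SSet.{u}).obj n) :
    Fin (n.unop.len + 1) ⥤ Fin 2 :=
  (stdSimplex.objEquiv t).toOrderHom.monotone.functor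

variable {C : Type u} [Category.{v} C] {D : Type u} [Category.{v} D]

/-- The simplicial homotopy attached to a natural transformation. -/
def nerveHomotopy {F G : C ⥤ D} (α : F ⟶ G) : nerve C ⊗ Δ[1] ⟶ nerve D where
  app n := ↾fun x => Functor.prod' (simplexFunctor x.2) x.1 ⋙
    Functor.uncurry.obj (ComposableArrows.mk₁ α)
  naturality n m f := by
    ext x
    rfl

lemma mk₁_map_zero {F G : C ⥤ D} (α : F ⟶ G) (f : (0 : Fin 2) ⟶ 0) :
    (ComposableArrows.mk₁ α).map f = 𝟙 F := by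
  rw [Subsingleton.elim f (𝟙 _)]
  exact (ComposableArrows.mk₁ α).map_id 0

lemma mk₁_map_one {F G : C ⥤ D} (α : F ⟶ G) (f : (1 : Fin 2) ⟶ 1) :
    (ComposableArrows.mk₁ α).map f = 𝟙 G := by
  rw [Subsingleton.elim f (𝟙 _)]
  exact (ComposableArrows.mk₁ α).map_id 1

lemma nerveHomotopy_zero {F G : C ⥤ D} (α : F ⟶ G) :
    ι₀ ≫ nerveHomotopy α = nerveMap F := by
  ext n x
  refine CategoryTheory.Functor.ext (fun _ => rfl) ?_
  intro i j f
  have h : ((ComposableArrows.mk₁ α).map (𝟙 (0 : Fin 2))).app (x.obj i) ≫ F.map (x.map f) =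
      𝟙 _ ≫ F.map (x.map f) ≫ 𝟙 _ := by
    rw [mk₁_map_zero]
    simp only [Category.comp_id, Category.id_comp, NatTrans.id_app]
    exact Category.id_comp _
  exact h

lemma nerveHomotopy_one {F G : C ⥤ D} (α : F ⟶ G) :
    ι₁ ≫ nerveHomotopy α = nerveMap G := by
  ext n x
  refine CategoryTheory.Functor.ext (fun _ => rfl) ?_
  intro i j f
  have h : ((ComposableArrows.mk₁ α).map (𝟙 (1 : Fin 2))).app (x.obj i) ≫ G.map (x.map f) =
      𝟙 _ ≫ G.map (x.map f) ≫ 𝟙 _ := by
    rw [mk₁_map_one]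
    simp only [Category.comp_id, Category.id_comp, NatTrans.id_app]
    exact Category.id_comp _
  exact h

lemma homotopic_nerveMap {F G : C ⥤ D} (α : F ⟶ G) : Homotopic (nerveMap F) (nerveMap G) :=
  ⟨nerveHomotopy α, nerveHomotopy_zero α, nerveHomotopy_one α⟩

lemma khomotopic_nerveMap {F G : C ⥤ D} (α : F ⟶ G) : KHomotopic (nerveMap F) (nerveMap G) :=
  (homotopic_nerveMap α).khomotopic

/-- Weak contractibility. -/
def WC (X : SSet.{u}) : Prop := IsWeq (stdSimplex.isTerminalObj₀.from X)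

lemma IsWeq.of_WC {X Y : SSet.{u}} (f : X ⟶ Y) (hX : WC X) (hY : WC Y) : IsWeq f := by
  apply IsWeq.of_comp_right hY
  have : f ≫ stdSimplex.isTerminalObj₀.from Y = stdSimplex.isTerminalObj₀.from X :=
    stdSimplex.isTerminalObj₀.hom_ext _ _
  rw [this]
  exact hX

lemma WC.of_isWeq {X Y : SSet.{u}} {f : X ⟶ Y} (hf : IsWeq f) (hY : WC Y) : WC X := by
  have : f ≫ stdSimplex.isTerminalObj₀.from Y = stdSimplex.isTerminalObj₀.from X :=
    stdSimplex.isTerminalObj₀.hom_ext _ _
  unfold WC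
  rw [← this]
  exact hf.comp hY

lemma WC.of_isWeq' {X Y : SSet.{u}} {f : X ⟶ Y} (hf : IsWeq f) (hX : WC X) : WC Y := by
  have : f ≫ stdSimplex.isTerminalObj₀.from Y = stdSimplex.isTerminalObj₀.from X :=
    stdSimplex.isTerminalObj₀.hom_ext _ _
  unfold WC at hX
  rw [← this] at hX
  exact IsWeq.of_comp_left hf hX

lemma WC.of_iso {X Y : SSet.{u}} (e : X ≅ Y) (hX : WC X) : WC Y :=
  WC.of_isWeq' (IsWeq.of_iso e.hom) hX

lemma WC.of_const {X : SSet.{u}} (x : X _⦋0⦌) (h : KHomotopic (𝟙 X) (SSet.const x)) : WC X := by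
  apply IsWeq.of_homotopyInverse (SSet.const x)
  · exact h.symm
  · have : (SSet.const x ≫ stdSimplex.isTerminalObj₀.from X : (Δ[0] : SSet.{u}) ⟶ Δ[0]) = 𝟙 _ :=
      stdSimplex.isTerminalObj₀.hom_ext _ _
    rw [this]
    exact KHomotopic.refl _

lemma nerveMap_const {C : Type u} [Category.{u} C] (c : C) :
    nerveMap ((Functor.const C).obj c) = SSet.const (ComposableArrows.mk₀ c) := by
  rfl

lemma WC_nerve_of_const {C : Type u} [Category.{u} C] (c : C)
    (h : KHomotopic (nerveMap (𝟭 C)) (nerveMap ((Functor.const C).obj c))) : WC (nerve C) := by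
  rw [nerveMap_const] at h
  exact WC.of_const _ h

lemma WC_stdSimplex (n : ℕ) : WC (Δ[n] : SSet.{u}) := by
  refine WC.of_iso (stdSimplex.isoNerve n).symm ?_
  apply WC_nerve_of_const (ULift.up 0)
  apply KHomotopic.symm
  apply khomotopic_nerveMap
  exact { app := fun j => homOfLE (Fin.zero_le j.down) }

end Pool.Agent.K4H28.WHE
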