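import Pool.Agent.K4H28.WHE.Tot

/-!
# Pushouts of weakly contractible presheaves
-/

open CategoryTheory Opposite Limits Simplicial

universe u

namespace Pool.Agent.K4H28.WHE

lemma isPushout_sigma {ι : Type u} {A B C D : ι → Type u} (f : ∀ i, A i ⟶ B i)
    (g : ∀ i, A i ⟶ C i) (h : ∀ i, B i ⟶ D i) (k : ∀ i, C i ⟶ D i)
    (H : ∀ i, IsPushout (f i) (g i) (h i) (k i)) :
    IsPushout (↾fun (z : Σ i, A i) => (⟨z.1, f z.1 z.2⟩ : Σ i, B i))
      (↾fun (z : Σ i, A i) => (⟨z.1, g z.1 z.2⟩ : Σ i, C i))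
      (↾fun (z : Σ i, B i) => (⟨z.1, h z.1 z.2⟩ : Σ i, D i))
      (↾fun (z : Σ i, C i) => (⟨z.1, k z.1 z.2⟩ : Σ i, D i)) := by
  have w : ∀ i (a : A i), h i (f i a) = k i (g i a) := fun i a =>
    ConcreteCategory.congr_hom (H i).w a
  refine ⟨⟨?_⟩, ⟨PushoutCocone.IsColimit.mk _
    (fun s => ↾fun z => ((H z.1).desc (↾fun b => s.inl ⟨z.1, b⟩) (↾fun c => s.inr ⟨z.1, c⟩) ?_)
      z.2) ?_ ?_ ?_⟩⟩
  · refine ConcreteCategory.hom_ext _ _ (fun z => ?_)
    exact congrArg (fun t => (⟨z.1, t⟩ : Σ i, D i)) (w z.1 z.2)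
  · refine ConcreteCategory.hom_ext _ _ (fun a => ?_)
    exact ConcreteCategory.congr_hom s.condition (⟨z.1, a⟩ : Σ i, A i)
  · intro s
    refine ConcreteCategory.hom_ext _ _ (fun z => ?_)
    exact ConcreteCategory.congr_hom ((H z.1).inl_desc (↾fun b => s.inl ⟨z.1, b⟩)
      (↾fun c => s.inr ⟨z.1, c⟩) _) z.2
  · intro s
    refine ConcreteCategory.hom_ext _ _ (fun z => ?_)
    exact ConcreteCategory.congr_hom ((H z.1).inr_desc (↾fun b => s.inl ⟨z.1, b⟩)
      (↾fun c => s.inr ⟨z.1, c⟩) _) z.2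
  · intro s m h1 h2
    refine ConcreteCategory.hom_ext _ _ (fun z => ?_)
    obtain ⟨i, z⟩ := z
    have := (H i).hom_ext (k := ↾fun d => m ⟨i, d⟩)
      (l := (H i).desc (↾fun b => s.inl ⟨i, b⟩) (↾fun c => s.inr ⟨i, c⟩) (by
        refine ConcreteCategory.hom_ext _ _ (fun a => ?_)
        exact ConcreteCategory.congr_hom s.condition (⟨i, a⟩ : Σ i, A i)))
      (by
        rw [IsPushout.inl_desc]
        refine ConcreteCategory.hom_ext _ _ (fun b => ?_)
        exact ConcreteCategory.congr_hom h1 (⟨i, b⟩ : Σ i, B i))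
      (by
        rw [IsPushout.inr_desc]
        refine ConcreteCategory.hom_ext _ _ (fun b => ?_)
        exact ConcreteCategory.congr_hom h2 (⟨i, b⟩ : Σ i, C i))
    exact ConcreteCategory.congr_hom this z

variable {S : Type u} [SmallCategory S]

/-- Chains in `S` with an element of `P` over the last vertex. -/
def Psi (P : Sᵒᵖ ⥤ Type u) : SSet.{u} where
  obj n := Σ (s : ComposableArrows S n.unop.len), P.obj (op (s.obj (Fin.last _)))
  map {n m} θ := ↾fun z => ⟨(nerve S).map θ z.1,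
    P.map (z.1.map (homOfLE (Fin.le_last (θ.unop.toOrderHom (Fin.last _))))).op z.2⟩
  map_id n := by
    refine ConcreteCategory.hom_ext _ _ (fun z => ?_)
    refine Sigma.ext rfl (heq_of_eq ?_)
    change P.map (z.1.map (homOfLE (Fin.le_last (Fin.last n.unop.len)))).op z.2 = z.2
    have : homOfLE (Fin.le_last (Fin.last n.unop.len)) = 𝟙 _ := Subsingleton.elim _ _
    rw [this]
    simp
  map_comp {n m k} θ θ' := by
    refine ConcreteCategory.hom_ext _ _ (fun z => ?_)
    refine Sigma.ext rfl (heq_of_eq ?_)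
    change P.map (z.1.map (homOfLE (Fin.le_last (θ.unop.toOrderHom
        (θ'.unop.toOrderHom (Fin.last _)))))).op z.2 =
      P.map (z.1.map (homOfLE (θ.unop.toOrderHom.monotone
        (Fin.le_last (θ'.unop.toOrderHom (Fin.last _)))))).op
        (P.map (z.1.map (homOfLE (Fin.le_last (θ.unop.toOrderHom (Fin.last _))))).op z.2)
    rw [← Functor.map_comp_apply, ← op_comp, ← Functor.map_comp]
    rfl

/-- Functoriality of `Psi`. -/
def Psi.map {P Q : Sᵒᵖ ⥤ Type u} (f : P ⟶ Q) : Psi P ⟶ Psi Q where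
  app n := ↾fun z => ⟨z.1, f.app _ z.2⟩
  naturality n m θ := by
    refine ConcreteCategory.hom_ext _ _ (fun z => ?_)
    refine Sigma.ext rfl (heq_of_eq ?_)
    exact NatTrans.naturality_apply f _ z.2

lemma isPushout_Psi {P Q R T : Sᵒᵖ ⥤ Type u} {f : P ⟶ Q} {g : P ⟶ R} {f' : R ⟶ T}
    {g' : Q ⟶ T} (h : IsPushout f g g' f') :
    IsPushout (Psi.map f) (Psi.map g) (Psi.map g') (Psi.map f') where
  w := by
    refine NatTrans.ext (funext fun n => ?_)
    refine ConcreteCategory.hom_ext _ _ (fun z => ?_)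
    refine Sigma.ext rfl (heq_of_eq ?_)
    have h3 : (f ≫ g').app (op (z.1.obj (Fin.last _))) =
        (g ≫ f').app (op (z.1.obj (Fin.last _))) := by rw [h.w]
    exact ConcreteCategory.congr_hom h3 z.2
  isColimit' :=
    ⟨evaluationJointlyReflectsColimits _
      (fun n ↦ (PushoutCocone.isColimitMapCoconeEquiv _ _).2 (by
        have h2 := isPushout_sigma
          (fun s : ComposableArrows S n.unop.len => f.app (op (s.obj (Fin.last _))))
          (fun s => g.app (op (s.obj (Fin.last _))))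
          (fun s => g'.app (op (s.obj (Fin.last _))))
          (fun s => f'.app (op (s.obj (Fin.last _))))
          (fun s => h.map ((evaluation _ _).obj (op (s.obj (Fin.last _)))))
        exact h2.isColimit))⟩

/-- Elements of a presheaf over a functor to the site. -/
structure ELift (P : Sᵒᵖ ⥤ Type u) {n : ℕ} (s : Fin (n + 1) ⥤ S) where
  /-- the elements -/
  x : ∀ i, P.obj (op (s.obj i))
  w : ∀ {i j} (f : i ⟶ j), P.map (s.map f).op (x j) = x i

/-- The functor attached to a lift. -/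
def ELift.toFunctor {P : Sᵒᵖ ⥤ Type u} {n : ℕ} {s : Fin (n + 1) ⥤ S} (L : ELift P s) :
    Fin (n + 1) ⥤ El P where
  obj i := ⟨s.obj i, L.x i⟩
  map f := ⟨s.map f, L.w f⟩
  map_id i := El.hom_ext (s.map_id i)
  map_comp f g := El.hom_ext (s.map_comp f g)

/-- The lift attached to the last element. -/
def ELift.ofLast {P : Sᵒᵖ ⥤ Type u} {n : ℕ} (s : Fin (n + 1) ⥤ S)
    (y : P.obj (op (s.obj (Fin.last n)))) : ELift P s where
  x i := P.map (s.map (homOfLE (Fin.le_last i))).op y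
  w {i j} f := by
    rw [← Functor.map_comp_apply, ← op_comp, ← Functor.map_comp]
    rfl

lemma ELift.ext_last {P : Sᵒᵖ ⥤ Type u} {n : ℕ} {s : Fin (n + 1) ⥤ S} {L L' : ELift P s}
    (h : L.x (Fin.last n) = L'.x (Fin.last n)) : L = L' := by
  obtain ⟨x, w⟩ := L
  obtain ⟨x', w'⟩ := L'
  obtain rfl : x = x' := by
    funext i
    rw [← w (homOfLE (Fin.le_last i)), ← w' (homOfLE (Fin.le_last i))]
    exact congrArg _ h
  rfl

/-- Comparison of the nerve and of `Psi`. -/
def nerveToPsi (P : Sᵒᵖ ⥤ Type u) : nerve (El P) ⟶ Psi P where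
  app n := ↾fun F => ⟨{ obj := fun i => (F.obj i).c, map := fun f => (F.map f).a,
                        map_id := fun i => congrArg (fun t => El.Hom.a t) (F.map_id i),
                        map_comp := fun f g => congrArg (fun t => El.Hom.a t) (F.map_comp f g) },
    (F.obj (Fin.last _)).x⟩
  naturality n m θ := by
    refine ConcreteCategory.hom_ext _ _ (fun F => ?_)
    refine Sigma.ext rfl (heq_of_eq ?_)
    exact ((F.map (homOfLE (Fin.le_last (θ.unop.toOrderHom (Fin.last _))))).w).symm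

instance (P : Sᵒᵖ ⥤ Type u) : IsIso (nerveToPsi P) := by
  have : ∀ n, IsIso ((nerveToPsi P).app n) := by
    intro n
    rw [isIso_iff_bijective]
    constructor
    · intro F F' h
      obtain ⟨s, L, rfl⟩ : ∃ (s : Fin (n.unop.len + 1) ⥤ S) (L : ELift P s),
          F = L.toFunctor := ⟨((nerveToPsi P).app n F).1, ⟨fun i => (F.obj i).x,
            fun f => (F.map f).w⟩, rfl⟩
      obtain ⟨s', L', rfl⟩ : ∃ (s : Fin (n.unop.len + 1) ⥤ S) (L : ELift P s),
          F' = L.toFunctor := ⟨((nerveToPsi P).app n F').1, ⟨fun i => (F'.obj i).x,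
            fun f => (F'.map f).w⟩, rfl⟩
      have h1 : (⟨s, L.x (Fin.last _)⟩ : Σ (s : ComposableArrows S n.unop.len),
          P.obj (op (s.obj (Fin.last _)))) = ⟨s', L'.x (Fin.last _)⟩ := h
      obtain rfl : s = s' := congrArg Sigma.fst h1
      have h2 : L = L' := ELift.ext_last (eq_of_heq (Sigma.mk.inj h1).2)
      rw [h2]
    · rintro ⟨s, y⟩
      refine ⟨(ELift.ofLast (P := P) s y).toFunctor, ?_⟩
      refine Sigma.ext rfl (heq_of_eq ?_)
      change P.map (s.map (homOfLE (Fin.le_last (Fin.last n.unop.len)))).op y = y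
      have : homOfLE (Fin.le_last (Fin.last n.unop.len)) = 𝟙 _ := Subsingleton.elim _ _
      rw [this]
      simp
  exact NatIso.isIso_of_isIso_app _

lemma WCP_iff (P : Sᵒᵖ ⥤ Type u) : WCP P ↔ WC (Psi P) :=
  ⟨fun h => WC.of_isWeq' (IsWeq.of_iso (nerveToPsi P)) h,
    fun h => WC.of_isWeq (IsWeq.of_iso (nerveToPsi P)) h⟩

lemma mono_Psi_map {P Q : Sᵒᵖ ⥤ Type u} (f : P ⟶ Q)
    (hf : ∀ c, Function.Injective (f.app c)) : Mono (Psi.map f) := by
  have : ∀ n, Mono ((Psi.map f).app n) := fun n => by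
    rw [mono_iff_injective]
    rintro ⟨s, x⟩ ⟨s', x'⟩ h
    have h1 : (⟨s, f.app _ x⟩ : Σ (s : ComposableArrows S n.unop.len),
          Q.obj (op (s.obj (Fin.last _)))) = ⟨s', f.app _ x'⟩ := h
    obtain rfl : s = s' := congrArg Sigma.fst h1
    rw [hf _ (eq_of_heq (Sigma.mk.inj h1).2)]
  exact NatTrans.mono_of_mono_app _

/-- Pushouts of weakly contractible presheaves along monomorphisms. -/
theorem WCP_pushout {P Q R T : Sᵒᵖ ⥤ Type u} {f : P ⟶ Q} {g : P ⟶ R} {f' : R ⟶ T}
    {g' : Q ⟶ T} (h : IsPushout f g g' f') (hf : ∀ c, Function.Injective (f.app c))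
    (hP : WCP P) (hQ : WCP Q) (hR : WCP R) : WCP T := by
  rw [WCP_iff] at *
  have := mono_Psi_map f hf
  have h1 : acyc (Psi.map f) := acyc_of_isWeq _ (IsWeq.of_WC _ hP hQ)
  have h2 : acyc (Psi.map f') := MorphismProperty.of_isPushout (P := acyc) (isPushout_Psi h).flip h1
  exact WC.of_isWeq' h2.isWeq hR

end Pool.Agent.K4H28.WHE
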