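import Pool.Agent.K4H28.WHE.Tot

/-!
# Comparison of the site and of the category of weakly contractible presheaves
-/

open CategoryTheory Opposite

universe w₁ w₂ u

namespace Pool.Agent.K4H28.WHE

variable {S : Type u} [SmallCategory S] {Ob : Type u} (φ : Ob → (Sᵒᵖ ⥤ Type u))
  (o : S → Ob) (i : ∀ c, φ (o c) ≅ yoneda.obj c)

/-- The canonical functor from the site. -/
def siteIncl : S ⥤ Tot (inducedFunctor φ) where
  obj c := ⟨o c, c, (i c).inv.app (op c) (𝟙 c)⟩
  map {c c'} a := ⟨InducedCategory.homMk ((i c).hom ≫ yoneda.map a ≫ (i c').inv), a, by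
    change (φ (o c')).map a.op ((i c').inv.app (op c') (𝟙 c')) =
      (i c').inv.app (op c) ((yoneda.map a).app (op c)
        ((i c).hom.app (op c) ((i c).inv.app (op c) (𝟙 c))))
    have h1 : (i c).hom.app (op c) ((i c).inv.app (op c) (𝟙 c)) = 𝟙 c := by
      simp
    rw [h1, ← NatTrans.naturality_apply]
    congr 1
    simp⟩
  map_id c := by
    apply Tot.hom_ext
    · apply InducedCategory.hom_ext
      simp
    · rfl
  map_comp a b := by
    apply Tot.hom_ext
    · apply InducedCategory.hom_ext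
      simp
    · rfl

/-- The comparison transformation. -/
def siteNat : Tot.pc (inducedFunctor φ) ⋙ siteIncl φ o i ⟶ 𝟭 _ where
  app e := ⟨InducedCategory.homMk ((i e.c).hom ≫ yonedaEquiv.symm e.x), 𝟙 _, by
    change (φ e.j).map (𝟙 (op e.c)) e.x = (yonedaEquiv.symm e.x).app (op e.c)
        ((i e.c).hom.app (op e.c) ((i e.c).inv.app (op e.c) (𝟙 e.c)))
    have h1 : (i e.c).hom.app (op e.c) ((i e.c).inv.app (op e.c) (𝟙 e.c)) = 𝟙 e.c := by
      simp
    rw [h1]
    rfl⟩
  naturality e e' s := by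
    apply Tot.hom_ext
    · apply InducedCategory.hom_ext
      change ((i e.c).hom ≫ yoneda.map s.a ≫ (i e'.c).inv) ≫ (i e'.c).hom ≫
        yonedaEquiv.symm e'.x = ((i e.c).hom ≫ yonedaEquiv.symm e.x) ≫ s.f.hom
      simp only [Category.assoc, Iso.inv_hom_id_assoc]
      congr 1
      ext d g
      change (φ e'.j).map (g ≫ s.a).op e'.x = s.f.hom.app d ((φ e.j).map g.op e.x)
      have hw : (φ e'.j).map s.a.op e'.x = s.f.hom.app (op e.c) e.x := s.w
      rw [NatTrans.naturality_apply, ← hw, op_comp, Functor.map_comp_apply]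
    · change s.a ≫ 𝟙 _ = 𝟙 _ ≫ s.a
      rw [Category.comp_id, Category.id_comp]

include i in
theorem isWeq_nerveMap_pc : IsWeq (nerveMap (Tot.pc (inducedFunctor φ))) := by
  apply IsWeq.of_homotopyInverse (nerveMap (siteIncl φ o i))
  · exact khomotopic_nerveMap (siteNat φ o i)
  · exact KHomotopic.refl _

end Pool.Agent.K4H28.WHE
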