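import Pool.Agent.K4H28.WHE.Cyl
import Mathlib.CategoryTheory.SingleObj
import Mathlib.CategoryTheory.Products.Basic

/-!
# The site attached to a small category
-/

open CategoryTheory Opposite

universe u

namespace Pool.Agent.K4H28.WHE

/-- The one object category of self maps of `ℕ`. -/
abbrev NN : Type := SingleObj (Function.End ℕ)

/-- A self map of `ℕ` as a morphism. -/
def nn (f : ℕ → ℕ) : SingleObj.star (Function.End ℕ) ⟶ SingleObj.star (Function.End ℕ) := f

/-- The doubling of a self map of `ℕ`. -/
def dbl (f : ℕ → ℕ) (n : ℕ) : ℕ := Nat.bit (Nat.bodd n) (f (Nat.div2 n))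

lemma dbl_id : dbl id = id := by
  funext n
  simp [dbl]

lemma dbl_comp (f g : ℕ → ℕ) : dbl (f ∘ g) = dbl f ∘ dbl g := by
  funext n
  simp [dbl]

/-- Doubling, as an endofunctor. -/
def TN : NN ⥤ NN where
  obj _ := SingleObj.star _
  map f := nn (dbl f)
  map_id _ := dbl_id
  map_comp f g := dbl_comp g f

/-- The sections. -/
def σN (t : Bool) : 𝟭 NN ⟶ TN where
  app _ := nn (Nat.bit t)
  naturality _ _ f := by
    change (Nat.bit t) ∘ (f : ℕ → ℕ) = dbl f ∘ (Nat.bit t)
    funext n
    simp [dbl]

/-- The projection. -/
def πN : TN ⟶ 𝟭 NN where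
  app _ := nn Nat.div2
  naturality _ _ f := by
    change Nat.div2 ∘ dbl f = (f : ℕ → ℕ) ∘ Nat.div2
    funext n
    simp [dbl]

variable (D : Type u) [SmallCategory D]

/-- The site. -/
abbrev Si : Type u := D × NN

instance : SmallCategory (Si D) := inferInstanceAs (Category (D × NN))

/-- The cylinder structure of the site. -/
def cylSi : Cyl (Si D) where
  T := (𝟭 D).prod TN
  σ t := { app := fun c => (𝟙 c.1, (σN t).app c.2)
           naturality := fun c c' f => by
            apply Prod.ext
            · exact (Category.comp_id _).trans (Category.id_comp _).symm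
            · exact (σN t).naturality f.2 }
  π := { app := fun c => (𝟙 c.1, πN.app c.2)
         naturality := fun c c' f => by
            apply Prod.ext
            · exact (Category.comp_id _).trans (Category.id_comp _).symm
            · exact πN.naturality f.2 }
  σπ t c := by
    apply Prod.ext
    · exact Category.comp_id _
    · change Nat.div2 ∘ Nat.bit t = id
      funext n
      simp
  I := { obj := fun _ => ULift.{u} (ℕ → Bool)
         map := fun {c c'} f => ↾fun i => ⟨i.down ∘ (show ℕ → ℕ from f.unop.2)⟩ }
  pt t _ := ⟨fun _ => t⟩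
  pt_map _ _ _ _ := rfl
  pt_ne _ h := by
    have := congrFun (congrArg ULift.down h) 0
    simp at this
  β _ := ⟨Nat.bodd⟩
  β_map {c c'} a := by
    apply ULift.ext
    change Nat.bodd ∘ dbl a.2 = Nat.bodd
    funext n
    simp [dbl]
  β_σ t c := by
    apply ULift.ext
    change Nat.bodd ∘ Nat.bit t = fun _ => t
    funext n
    simp

/-- The inclusion of `D`. -/
def inclSi : D ⥤ Si D where
  obj d := (d, SingleObj.star _)
  map a := (a, nn id)

/-- The comparison transformation. -/
def natSi : 𝟭 (Si D) ⟶ CategoryTheory.Prod.fst D NN ⋙ inclSi D where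
  app c := (𝟙 c.1, nn (fun _ => 0))
  naturality c c' f := by
    apply Prod.ext
    · exact (Category.comp_id _).trans (Category.id_comp _).symm
    · rfl

lemma isWeq_fst_Si : IsWeq (nerveMap (CategoryTheory.Prod.fst D NN : Si D ⥤ D)) := by
  apply IsWeq.of_homotopyInverse (nerveMap (inclSi D))
  · exact (khomotopic_nerveMap (natSi D)).symm
  · exact KHomotopic.refl _

end Pool.Agent.K4H28.WHE
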