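import Pool.Agent.K4H28.WHE.Fiber
import Mathlib.CategoryTheory.InducedCategory

/-!
# Categories of elements
-/

open CategoryTheory MonoidalCategory CartesianMonoidalCategory Simplicial
  HomotopicalAlgebra Limits Opposite

universe w₁ w₂ u

namespace Pool.Agent.K4H28.WHE

open SSet SSet.modelCategoryQuillen

variable {S : Type u} [SmallCategory S]

section

variable {J : Type w₁} [Category.{w₂} J] (G : J ⥤ (Sᵒᵖ ⥤ Type u))

/-- The category of triples `(j, c, x)` with `x` an element of `G j` over `c`. -/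
structure Tot where
  /-- the index -/
  j : J
  /-- the object of the site -/
  c : S
  /-- the element -/
  x : (G.obj j).obj (op c)

variable {G}

/-- Morphisms of `Tot G`. -/
@[ext]
structure Tot.Hom (e e' : Tot G) where
  /-- the index part -/
  f : e.j ⟶ e'.j
  /-- the site part -/
  a : e.c ⟶ e'.c
  w : (G.obj e'.j).map a.op e'.x = (G.map f).app _ e.x

instance : Category (Tot G) where
  Hom e e' := Tot.Hom e e'
  id e := ⟨𝟙 _, 𝟙 _, by simp⟩
  comp {e e' e''} s t := ⟨s.f ≫ t.f, s.a ≫ t.a, by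
    rw [op_comp, Functor.map_comp_apply, t.w, Functor.map_comp, NatTrans.comp_app]
    change _ = (G.map t.f).app (op e.c) ((G.map s.f).app (op e.c) e.x)
    rw [← s.w, NatTrans.naturality_apply]⟩
  id_comp s := by
    apply Tot.Hom.ext
    · exact Category.id_comp _
    · exact Category.id_comp _
  comp_id s := by
    apply Tot.Hom.ext
    · exact Category.comp_id _
    · exact Category.comp_id _
  assoc s t r := by
    apply Tot.Hom.ext
    · exact Category.assoc _ _ _
    · exact Category.assoc _ _ _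

lemma Tot.hom_ext {e e' : Tot G} {s t : e ⟶ e'} (h₁ : s.f = t.f) (h₂ : s.a = t.a) : s = t :=
  Tot.Hom.ext h₁ h₂

@[simp] lemma Tot.comp_f {e e' e'' : Tot G} (s : e ⟶ e') (t : e' ⟶ e'') :
    (s ≫ t).f = s.f ≫ t.f := rfl
@[simp] lemma Tot.comp_a {e e' e'' : Tot G} (s : e ⟶ e') (t : e' ⟶ e'') :
    (s ≫ t).a = s.a ≫ t.a := rfl
@[simp] lemma Tot.id_f (e : Tot G) : (𝟙 e : e ⟶ e).f = 𝟙 _ := rfl
@[simp] lemma Tot.id_a (e : Tot G) : (𝟙 e : e ⟶ e).a = 𝟙 _ := rfl

variable (G)

/-- The projection to the index category. -/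
def Tot.pj : Tot G ⥤ J where
  obj e := e.j
  map s := s.f

/-- The projection to the site. -/
def Tot.pc : Tot G ⥤ S where
  obj e := e.c
  map s := s.a

/-- The change of index category. -/
def Tot.base {J' : Type} [SmallCategory J'] (T : J' ⥤ J) : Tot (T ⋙ G) ⥤ Tot G where
  obj e := ⟨T.obj e.j, e.c, e.x⟩
  map s := ⟨T.map s.f, s.a, s.w⟩
  map_id _ := Tot.hom_ext (T.map_id _) rfl
  map_comp _ _ := Tot.hom_ext (T.map_comp _ _) rfl

/-- Lifts of a functor `w : K ⥤ J` to `Tot G`. -/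
structure TLift {K : Type} [SmallCategory K] (w : K ⥤ J) where
  /-- the site part -/
  c : K ⥤ S
  /-- the elements -/
  x : ∀ k, (G.obj (w.obj k)).obj (op (c.obj k))
  w : ∀ {k k' : K} (f : k ⟶ k'),
    (G.obj (w.obj k')).map (c.map f).op (x k') = (G.map (w.map f)).app _ (x k)

variable {G}

/-- The functor attached to a lift. -/
def TLift.toFunctor {K : Type} [SmallCategory K] {w : K ⥤ J} (L : TLift G w) : K ⥤ Tot G where
  obj k := ⟨w.obj k, L.c.obj k, L.x k⟩
  map f := ⟨w.map f, L.c.map f, L.w f⟩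
  map_id _ := Tot.hom_ext (w.map_id _) (L.c.map_id _)
  map_comp _ _ := Tot.hom_ext (w.map_comp _ _) (L.c.map_comp _ _)

/-- The lift attached to a functor. -/
def TLift.ofFunctor {K : Type} [SmallCategory K] (F : K ⥤ Tot G) : TLift G (F ⋙ Tot.pj G) where
  c := F ⋙ Tot.pc G
  x k := (F.obj k).x
  w f := (F.map f).w

lemma TLift.toFunctor_comp_pj {K : Type} [SmallCategory K] {w : K ⥤ J} (L : TLift G w) :
    L.toFunctor ⋙ Tot.pj G = w := rfl

lemma TLift.toFunctor_ofFunctor {K : Type} [SmallCategory K] (F : K ⥤ Tot G) :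
    (TLift.ofFunctor F).toFunctor = F := rfl

lemma TLift.exists_eq {K : Type} [SmallCategory K] (F : K ⥤ Tot G) :
    ∃ (w : K ⥤ J) (L : TLift G w), F = L.toFunctor := ⟨_, TLift.ofFunctor F, rfl⟩

lemma TLift.toFunctor_injective {K : Type} [SmallCategory K] {w : K ⥤ J} {L L' : TLift G w}
    (h : L.toFunctor = L'.toFunctor) : L = L' := by
  have h1 : TLift.ofFunctor L.toFunctor ≍ TLift.ofFunctor L'.toFunctor := by rw [h]
  exact eq_of_heq h1

end

/-- The category of elements of a presheaf. -/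
structure El (P : Sᵒᵖ ⥤ Type u) where
  /-- the object of the site -/
  c : S
  /-- the element -/
  x : P.obj (op c)

/-- Morphisms of `El P`. -/
@[ext]
structure El.Hom {P : Sᵒᵖ ⥤ Type u} (e e' : El P) where
  /-- the site part -/
  a : e.c ⟶ e'.c
  w : P.map a.op e'.x = e.x

instance (P : Sᵒᵖ ⥤ Type u) : SmallCategory (El P) where
  Hom e e' := El.Hom e e'
  id e := ⟨𝟙 _, by simp⟩
  comp {e e' e''} s t := ⟨s.a ≫ t.a, by
    rw [op_comp, Functor.map_comp_apply, t.w, s.w]⟩
  id_comp s := by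
    apply El.Hom.ext
    exact Category.id_comp _
  comp_id s := by
    apply El.Hom.ext
    exact Category.comp_id _
  assoc s t r := by
    apply El.Hom.ext
    exact Category.assoc _ _ _

lemma El.hom_ext {P : Sᵒᵖ ⥤ Type u} {e e' : El P} {s t : e ⟶ e'} (h : s.a = t.a) : s = t :=
  El.Hom.ext h

@[simp] lemma El.comp_a {P : Sᵒᵖ ⥤ Type u} {e e' e'' : El P} (s : e ⟶ e') (t : e' ⟶ e'') :
    (s ≫ t).a = s.a ≫ t.a := rfl
@[simp] lemma El.id_a {P : Sᵒᵖ ⥤ Type u} (e : El P) : (𝟙 e : e ⟶ e).a = 𝟙 _ := rfl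

/-- The functor between categories of elements induced by a natural transformation. -/
def El.map {P Q : Sᵒᵖ ⥤ Type u} (f : P ⟶ Q) : El P ⥤ El Q where
  obj e := ⟨e.c, f.app _ e.x⟩
  map {e e'} s := ⟨s.a, by
    change Q.map s.a.op (f.app (op e'.c) e'.x) = f.app (op e.c) e.x
    rw [← NatTrans.naturality_apply, s.w]⟩

/-- Weak contractibility of a presheaf. -/
def WCP (P : Sᵒᵖ ⥤ Type u) : Prop := WC (nerve (El P))

section fiber

variable {k : ℕ} (G : Fin (k + 1) ⥤ (Sᵒᵖ ⥤ Type u))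

/-- Inclusion of the last fibre. -/
def lastIncl : El (G.obj (Fin.last k)) ⥤ Tot G where
  obj e := ⟨Fin.last k, e.c, e.x⟩
  map {e e'} s := ⟨𝟙 _, s.a, by
    rw [G.map_id]
    exact s.w⟩
  map_id _ := rfl
  map_comp _ _ := Tot.hom_ext (Category.id_comp _).symm rfl

/-- Retraction onto the last fibre. -/
def lastRetr : Tot G ⥤ El (G.obj (Fin.last k)) where
  obj e := ⟨e.c, (G.map (homOfLE (Fin.le_last e.j))).app _ e.x⟩
  map {e e'} s := ⟨s.a, by
    change (G.obj (Fin.last k)).map s.a.op ((G.map (homOfLE (Fin.le_last e'.j))).app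
      (op e'.c) e'.x) = (G.map (homOfLE (Fin.le_last e.j))).app (op e.c) e.x
    rw [← NatTrans.naturality_apply, s.w]
    have : homOfLE (Fin.le_last e.j) = s.f ≫ homOfLE (Fin.le_last e'.j) :=
      Subsingleton.elim _ _
    rw [this, G.map_comp]
    rfl⟩

/-- First natural transformation. -/
def lastNat₁ : lastIncl G ⋙ lastRetr G ⟶ 𝟭 _ where
  app e := ⟨𝟙 _, by
    change (G.obj (Fin.last k)).map (𝟙 (op e.c)) e.x =
      (G.map (homOfLE (Fin.le_last (Fin.last k)))).app _ e.x
    have : homOfLE (Fin.le_last (Fin.last k)) = 𝟙 (Fin.last k) :=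
      Subsingleton.elim _ _
    rw [this, G.map_id]
    simp⟩
  naturality e e' s := by
    apply El.hom_ext
    change s.a ≫ 𝟙 _ = 𝟙 _ ≫ s.a
    rw [Category.comp_id, Category.id_comp]

/-- Second natural transformation. -/
def lastNat₂ : 𝟭 _ ⟶ lastRetr G ⋙ lastIncl G where
  app e := ⟨homOfLE (Fin.le_last e.j), 𝟙 _, by
    change (G.obj (Fin.last k)).map (𝟙 (op e.c)) _ = _
    simp [lastRetr, lastIncl]
    rfl⟩
  naturality e e' s := by
    apply Tot.hom_ext
    · exact Subsingleton.elim _ _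
    · change s.a ≫ 𝟙 _ = 𝟙 _ ≫ s.a
      rw [Category.comp_id, Category.id_comp]

lemma WC_nerve_tot (h : WCP (G.obj (Fin.last k))) : WC (nerve (Tot G)) := by
  refine WC.of_isWeq' (f := nerveMap (lastIncl G)) ?_ h
  apply IsWeq.of_homotopyInverse (nerveMap (lastRetr G))
  · exact khomotopic_nerveMap (lastNat₁ G)
  · exact (khomotopic_nerveMap (lastNat₂ G)).symm

end fiber

/-- The projection to the index category is a weak equivalence when all presheaves involved
are weakly contractible. -/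
theorem isWeq_nerveMap_pj {J : Type u} [SmallCategory J] (G : J ⥤ (Sᵒᵖ ⥤ Type u))
    (h : ∀ j, WCP (G.obj j)) : IsWeq (nerveMap (Tot.pj G)) := by
  apply isWeq_of_fibers
  intro k τ
  obtain ⟨T, rfl⟩ : ∃ T : (nerve J) _⦋k⦌, τ = SSet.yonedaEquiv.symm T :=
    ⟨SSet.yonedaEquiv τ, (SSet.yonedaEquiv.symm_apply_apply τ).symm⟩
  change Fin (k + 1) ⥤ J at T
  have hτ : ∀ (n : SimplexCategoryᵒᵖ) (a : (Δ[k] : SSet.{u}).obj n),
      (SSet.yonedaEquiv.symm (show (nerve J) _⦋k⦌ from T)).app n a =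
        (SimplexCategory.homEquivFunctor (stdSimplex.objEquiv a)) ⋙ T := fun n a => rfl
  let f : nerve (Tot (T ⋙ G)) ⟶ Δ[k] :=
    { app := fun n => ↾fun F => stdSimplex.objEquiv.symm
        (SimplexCategory.homEquivFunctor.symm (F ⋙ Tot.pj (T ⋙ G)))
      naturality := by
        intro n m φ
        refine ConcreteCategory.hom_ext _ _ (fun F => ?_)
        rfl }
  have hf : ∀ (n : SimplexCategoryᵒᵖ) (F : (nerve (Tot (T ⋙ G))).obj n),
      SimplexCategory.homEquivFunctor (stdSimplex.objEquiv (f.app n F)) =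
        F ⋙ Tot.pj (T ⋙ G) := fun n F => rfl
  let g : nerve (Tot (T ⋙ G)) ⟶ nerve (Tot G) :=
    { app := fun n => ↾fun F => F ⋙ Tot.base G T
      naturality := by
        intro n m φ
        rfl }
  refine ⟨nerve (Tot (T ⋙ G)), f, g, ?_, ?_, ?_, ?_⟩
  · ext n F
    rfl
  · intro n z z' h1 h2
    obtain ⟨w, L, rfl⟩ := TLift.exists_eq z
    obtain ⟨w', L', rfl⟩ := TLift.exists_eq z'
    have h3 := congrArg (fun t => SimplexCategory.homEquivFunctor (stdSimplex.objEquiv t)) h1
    simp only [hf] at h3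
    obtain rfl : w = w' := h3
    have h4 : TLift.toFunctor (G := G) (w := w ⋙ T) ⟨L.c, L.x, L.w⟩ =
        TLift.toFunctor (G := G) (w := w ⋙ T) ⟨L'.c, L'.x, L'.w⟩ := h2
    have h5 := TLift.toFunctor_injective h4
    obtain ⟨c, x, hw⟩ := L
    obtain ⟨c', x', hw'⟩ := L'
    simp only [TLift.mk.injEq] at h5
    obtain ⟨rfl, h6⟩ := h5
    obtain rfl := eq_of_heq h6
    rfl
  · intro n a x hx
    obtain ⟨w, L, rfl⟩ := TLift.exists_eq x
    rw [hτ] at hx
    have hx' : (SimplexCategory.homEquivFunctor (stdSimplex.objEquiv a)) ⋙ T = w := hx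
    subst hx'
    refine ⟨TLift.toFunctor (G := T ⋙ G)
      (w := SimplexCategory.homEquivFunctor (stdSimplex.objEquiv a)) ⟨L.c, L.x, L.w⟩, ?_, ?_⟩
    · apply stdSimplex.objEquiv.injective
      apply SimplexCategory.homEquivFunctor.injective
      rw [hf]
      rfl
    · rfl
  · exact WC_nerve_tot (T ⋙ G) (h _)

end Pool.Agent.K4H28.WHE
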