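import Pool.Agent.K4H28.WHE.Basic

/-!
# Fibrations between Kan complexes which are homotopy equivalences are trivial fibrations
-/

open CategoryTheory MonoidalCategory CartesianMonoidalCategory Simplicial
  HomotopicalAlgebra Limits Opposite

universe u

namespace Pool.Agent.K4H28.WHE

open SSet SSet.modelCategoryQuillen

lemma ext_lemma {A B E B' : SSet.{u}} (i : A ⟶ B) [Mono i] (p : E ⟶ B') [Fibration p]
    (f : B ⟶ E) (k : A ⊗ Δ[1] ⟶ E) (b : B ⊗ Δ[1] ⟶ B')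
    (h1 : ι₀ ≫ k = i ≫ f) (h2 : ι₀ ≫ b = f ≫ p) (h3 : i ▷ Δ[1] ≫ b = k ≫ p) :
    ∃ l : B ⊗ Δ[1] ⟶ E, ι₀ ≫ l = f ∧ i ▷ Δ[1] ≫ l = k ∧ l ≫ p = b := by
  let sq := Functor.PushoutObjObj.ofHasPushout (curriedTensor SSet.{u}) i
    (stdSimplex.δ 1 : (Δ[0] : SSet.{u}) ⟶ Δ[1])
  have hA : anodyneExtensions sq.ι := anodyneExtensions_pushoutObjObjι sq (anodyne_delta 1)
  have hl : HasLiftingProperty sq.ι p := hA p (by rwa [← HomotopicalAlgebra.fibration_iff])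
  have hw : i ▷ Δ[0] ≫ fst _ _ ≫ f = A ◁ stdSimplex.δ 1 ≫ k := by
    rw [whiskerLeft_delta_one, Category.assoc, h1, whiskerRight_fst_assoc]
  let t : sq.pt ⟶ E := sq.isPushout.desc (fst _ _ ≫ f) k hw
  have ht1 : sq.inl ≫ t = fst _ _ ≫ f := sq.isPushout.inl_desc _ _ _
  have ht2 : sq.inr ≫ t = k := sq.isPushout.inr_desc _ _ _
  have hsq : CommSq t sq.ι p b := ⟨by
    apply sq.isPushout.hom_ext
    · rw [reassoc_of% ht1, sq.inl_ι_assoc]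
      change _ = B ◁ stdSimplex.δ 1 ≫ b
      rw [whiskerLeft_delta_one, Category.assoc, h2]
    · rw [reassoc_of% ht2, sq.inr_ι_assoc]
      exact h3.symm⟩
  refine ⟨hsq.lift, ?_, ?_, hsq.fac_right⟩
  · have := sq.inl ≫= hsq.fac_left
    rw [sq.inl_ι_assoc, ht1] at this
    change B ◁ stdSimplex.δ 1 ≫ _ = _ at this
    rw [whiskerLeft_delta_one, Category.assoc] at this
    exact cancel_fst_zero this
  · have := sq.inr ≫= hsq.fac_left
    rw [sq.inr_ι_assoc, ht2] at this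
    exact this

lemma lift_lemma {B E B' : SSet.{u}} (p : E ⟶ B') [Fibration p]
    (f : B ⟶ E) (b : B ⊗ Δ[1] ⟶ B') (h2 : ι₀ ≫ b = f ≫ p) :
    ∃ l : B ⊗ Δ[1] ⟶ E, ι₀ ≫ l = f ∧ l ≫ p = b := by
  have hA : anodyneExtensions (B ◁ (stdSimplex.δ 1 : (Δ[0] : SSet.{u}) ⟶ Δ[1])) :=
    (anodyne_delta 1).whiskerLeft B
  have hl := hA p (by rwa [← HomotopicalAlgebra.fibration_iff])
  have hsq : CommSq (fst _ _ ≫ f) (B ◁ (stdSimplex.δ 1 : (Δ[0] : SSet.{u}) ⟶ Δ[1])) p b := ⟨by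
    rw [whiskerLeft_delta_one, Category.assoc, Category.assoc, h2]⟩
  obtain ⟨l, hl1, hl2⟩ : ∃ l, (B ◁ (stdSimplex.δ 1 : (Δ[0] : SSet.{u}) ⟶ Δ[1])) ≫ l =
      fst _ _ ≫ f ∧ l ≫ p = b := ⟨hsq.lift, hsq.fac_left, hsq.fac_right⟩
  rw [whiskerLeft_delta_one, Category.assoc] at hl1
  exact ⟨l, cancel_fst_zero hl1, hl2⟩

/-- A fibration between Kan complexes which is a homotopy equivalence has the right lifting
property with respect to monomorphisms. -/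
lemma trivFib_of_homotopyEquiv {E B : SSet.{u}} [KanComplex E] (p : E ⟶ B) [Fibration p]
    (g : B ⟶ E) (h1 : Homotopic (g ≫ p) (𝟙 B)) (h2 : Homotopic (p ≫ g) (𝟙 E)) :
    (MorphismProperty.monomorphisms SSet.{u}).rlp p := by
  -- strict section
  obtain ⟨b, hb0, hb1⟩ := h1
  obtain ⟨l, hl0, hlp⟩ := lift_lemma p g b hb0
  obtain ⟨s, hs⟩ : ∃ s : B ⟶ E, s = ι₁ ≫ l := ⟨_, rfl⟩
  have hsp : s ≫ p = 𝟙 B := by rw [hs, Category.assoc, hlp, hb1]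
  have hgs : Homotopic g s := ⟨l, hl0, hs.symm⟩
  have h3 : Homotopic (p ≫ s) (𝟙 E) := (hgs.comp_left p).eucl h2
  obtain ⟨H, hH0, hH1⟩ := h3
  obtain ⟨V, hV0, hV1, hVp⟩ := homotopy_lemma p (H ≫ p ≫ s) H
    (by rw [reassoc_of% hH0, hH0, reassoc_of% hsp])
    (by rw [Category.assoc, Category.assoc, hsp, Category.comp_id])
  simp only [Category.assoc, hsp, Category.comp_id, reassoc_of% hH1, hH1] at hV0 hV1 hVp
  intro A C i hi
  have : Mono i := hi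
  refine ⟨fun {a c} sq => ?_⟩
  obtain ⟨m, hm0, hm1, hm2⟩ := ext_lemma i p (c ≫ s) (a ▷ _ ≫ V) (fst _ _ ≫ c)
    (by rw [ι₀_comp_assoc, hV0, ← reassoc_of% sq.w])
    (by simp [hsp])
    (by rw [Category.assoc, hVp, whiskerRight_fst_assoc, whiskerRight_fst_assoc, sq.w])
  refine ⟨⟨⟨ι₁ ≫ m, ?_, ?_⟩⟩⟩
  · rw [← ι₁_comp_assoc, hm1, ι₁_comp_assoc, hV1, Category.comp_id]
  · rw [Category.assoc, hm2]
    simp

end Pool.Agent.K4H28.WHE
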