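import Pool.Agent.K4H28.WHE.Triv

/-!
# Weak homotopy equivalences and acyclic monomorphisms
-/

open CategoryTheory MonoidalCategory CartesianMonoidalCategory Simplicial
  HomotopicalAlgebra Limits Opposite

universe u

namespace Pool.Agent.K4H28.WHE

open SSet SSet.modelCategoryQuillen

/-- `f` induces bijections on homotopy classes of maps into all Kan complexes. -/
def IsWeq {X Y : SSet.{u}} (f : X ⟶ Y) : Prop :=
  ∀ (Z : SSet.{u}) [KanComplex Z], (∀ g : X ⟶ Z, ∃ g' : Y ⟶ Z, Homotopic (f ≫ g') g) ∧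
    ∀ g₁ g₂ : Y ⟶ Z, Homotopic (f ≫ g₁) (f ≫ g₂) → Homotopic g₁ g₂

lemma IsWeq.id (X : SSet.{u}) : IsWeq (𝟙 X) := by
  intro Z _
  exact ⟨fun g => ⟨g, by simpa using Homotopic.refl g⟩, fun g₁ g₂ h => by simpa using h⟩

lemma IsWeq.comp {X Y W : SSet.{u}} {f : X ⟶ Y} {g : Y ⟶ W} (hf : IsWeq f) (hg : IsWeq g) :
    IsWeq (f ≫ g) := by
  intro Z _
  refine ⟨fun k => ?_, fun k₁ k₂ h => ?_⟩
  · obtain ⟨k', hk'⟩ := (hf Z).1 k
    obtain ⟨k'', hk''⟩ := (hg Z).1 k'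
    refine ⟨k'', ?_⟩
    rw [Category.assoc]
    exact (hk''.comp_left f).trans hk'
  · rw [Category.assoc, Category.assoc] at h
    exact (hg Z).2 _ _ ((hf Z).2 _ _ h)

lemma IsWeq.of_comp_left {X Y W : SSet.{u}} {f : X ⟶ Y} {g : Y ⟶ W} (hf : IsWeq f)
    (hfg : IsWeq (f ≫ g)) : IsWeq g := by
  intro Z _
  refine ⟨fun k => ?_, fun k₁ k₂ h => ?_⟩
  · obtain ⟨k', hk'⟩ := (hfg Z).1 (f ≫ k)
    rw [Category.assoc] at hk'
    exact ⟨k', (hf Z).2 _ _ hk'⟩
  · apply (hfg Z).2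
    rw [Category.assoc, Category.assoc]
    exact h.comp_left f

lemma IsWeq.of_comp_right {X Y W : SSet.{u}} {f : X ⟶ Y} {g : Y ⟶ W} (hg : IsWeq g)
    (hfg : IsWeq (f ≫ g)) : IsWeq f := by
  intro Z _
  refine ⟨fun k => ?_, fun k₁ k₂ h => ?_⟩
  · obtain ⟨k', hk'⟩ := (hfg Z).1 k
    rw [Category.assoc] at hk'
    exact ⟨_, hk'⟩
  · obtain ⟨k₁', h₁⟩ := (hg Z).1 k₁
    obtain ⟨k₂', h₂⟩ := (hg Z).1 k₂
    have h3 : Homotopic ((f ≫ g) ≫ k₁') ((f ≫ g) ≫ k₂') := by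
      rw [Category.assoc, Category.assoc]
      exact ((h₁.comp_left f).trans h).trans (h₂.symm.comp_left f)
    have h4 := (hfg Z).2 _ _ h3
    exact (h₁.symm.trans (h4.comp_left g)).trans h₂

lemma IsWeq.congr {X Y : SSet.{u}} {f g : X ⟶ Y}
    (h : ∀ (Z : SSet.{u}) [KanComplex Z] (k : Y ⟶ Z), Homotopic (f ≫ k) (g ≫ k))
    (hf : IsWeq f) : IsWeq g := by
  intro Z _
  refine ⟨fun k => ?_, fun k₁ k₂ hk => ?_⟩
  · obtain ⟨k', hk'⟩ := (hf Z).1 k
    exact ⟨k', (h Z k').symm.trans hk'⟩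
  · exact (hf Z).2 _ _ (((h Z k₁).trans hk).trans (h Z k₂).symm)

/-- `f` and `g` become homotopic after composition with any map to a Kan complex. -/
def KHomotopic {X Y : SSet.{u}} (f g : X ⟶ Y) : Prop :=
  ∀ (Z : SSet.{u}) [KanComplex Z] (k : Y ⟶ Z), Homotopic (f ≫ k) (g ≫ k)

lemma KHomotopic.refl {X Y : SSet.{u}} (f : X ⟶ Y) : KHomotopic f f :=
  fun _ _ _ => Homotopic.refl _

lemma KHomotopic.symm {X Y : SSet.{u}} {f g : X ⟶ Y} (h : KHomotopic f g) : KHomotopic g f :=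
  fun Z _ k => (h Z k).symm

lemma KHomotopic.trans {X Y : SSet.{u}} {f g k : X ⟶ Y} (h : KHomotopic f g)
    (h' : KHomotopic g k) : KHomotopic f k :=
  fun Z _ l => (h Z l).trans (h' Z l)

lemma Homotopic.khomotopic {X Y : SSet.{u}} {f g : X ⟶ Y} (h : Homotopic f g) :
    KHomotopic f g := fun _ _ k => h.comp_right k

/-- Homotopy equivalences are weak equivalences. -/
lemma IsWeq.of_homotopyInverse {X Y : SSet.{u}} {f : X ⟶ Y} (g : Y ⟶ X)
    (h₁ : KHomotopic (f ≫ g) (𝟙 X)) (h₂ : KHomotopic (g ≫ f) (𝟙 Y)) : IsWeq f := by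
  intro Z _
  refine ⟨fun k => ⟨g ≫ k, ?_⟩, fun k₁ k₂ hk => ?_⟩
  · simpa using h₁ Z k
  · have h3 := h₂ Z k₁
    have h4 := h₂ Z k₂
    simp only [Category.assoc, Category.id_comp] at h3 h4
    exact (h3.symm.trans (hk.comp_left g)).trans h4

lemma IsWeq.of_iso {X Y : SSet.{u}} (f : X ⟶ Y) [IsIso f] : IsWeq f :=
  IsWeq.of_homotopyInverse (inv f) (by simpa using KHomotopic.refl _)
    (by simpa using KHomotopic.refl _)

section swap

variable {A B K K' Z : SSet.{u}}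

/-- Exchange of variables. -/
noncomputable def sw (g : A ⟶ (ihom K).obj Z) : K ⟶ (ihom A).obj Z :=
  MonoidalClosed.curry ((β_ A K).hom ≫ MonoidalClosed.uncurry g)

lemma sw_sw (g : A ⟶ (ihom K).obj Z) : sw (sw g) = g := by
  simp [sw]

lemma sw_comp_left (i : A ⟶ B) (g : B ⟶ (ihom K).obj Z) :
    sw (i ≫ g) = sw g ≫ (MonoidalClosed.pre i).app Z := by
  apply MonoidalClosed.uncurry_injective
  rw [MonoidalClosed.uncurry_pre_app]
  simp only [sw, MonoidalClosed.uncurry_curry, MonoidalClosed.uncurry_natural_left]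
  rfl

lemma sw_comp_pre (k : K' ⟶ K) (g : A ⟶ (ihom K).obj Z) :
    sw (g ≫ (MonoidalClosed.pre k).app Z) = k ≫ sw g := by
  have := sw_comp_left k (sw g)
  rw [sw_sw] at this
  rw [← this, sw_sw]

/-- Rearrangement of the factors. -/
noncomputable def rearr (A K T : SSet.{u}) : A ⊗ (K ⊗ T) ⟶ K ⊗ (A ⊗ T) :=
  lift (snd _ _ ≫ fst _ _) (lift (fst _ _) (snd _ _ ≫ snd _ _))

lemma Homotopic.sw {g g' : A ⟶ (ihom K).obj Z} (h : Homotopic g g') :
    Homotopic (sw g) (sw g') := by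
  obtain ⟨h, rfl, rfl⟩ := h
  refine ⟨MonoidalClosed.curry (rearr A K Δ[1] ≫ MonoidalClosed.uncurry h), ?_, ?_⟩
  · rw [← MonoidalClosed.curry_natural_left, WHE.sw, MonoidalClosed.uncurry_natural_left]
    rfl
  · rw [← MonoidalClosed.curry_natural_left, WHE.sw, MonoidalClosed.uncurry_natural_left]
    rfl

end swap

/-- Restriction along a monomorphism which is a weak equivalence is a trivial fibration. -/
lemma rlp_pre_of_isWeq {A B : SSet.{u}} (i : A ⟶ B) [Mono i] (hi : IsWeq i) (Z : SSet.{u})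
    [KanComplex Z] :
    (MorphismProperty.monomorphisms SSet.{u}).rlp ((MonoidalClosed.pre i).app Z) := by
  obtain ⟨g', hg'⟩ := (hi ((ihom ((ihom A).obj Z)).obj Z)).1 (sw (𝟙 _))
  have h1 : Homotopic (sw g' ≫ (MonoidalClosed.pre i).app Z) (𝟙 _) := by
    have := hg'.sw
    rwa [sw_sw, sw_comp_left] at this
  apply trivFib_of_homotopyEquiv _ (sw g') h1
  have h2 : Homotopic (sw ((MonoidalClosed.pre i).app Z ≫ sw g')) (sw (𝟙 _)) := by
    apply (hi _).2
    have h3 := (h1.comp_left ((MonoidalClosed.pre i).app Z)).sw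
    have e1 := sw_comp_pre i ((MonoidalClosed.pre i).app Z ≫ sw g')
    have e2 := sw_comp_pre i (𝟙 ((ihom B).obj Z))
    rw [Category.assoc] at e1
    rw [Category.id_comp] at e2
    rw [e1, Category.comp_id, e2] at h3
    exact h3
  have := h2.sw
  rwa [sw_sw, sw_sw] at this

/-- The test fibrations. -/
inductive TestFib : ∀ ⦃X Y : SSet.{u}⦄, (X ⟶ Y) → Prop
  | mk {C D : SSet.{u}} (k : C ⟶ D) [Mono k] (Z : SSet.{u}) [KanComplex Z] :
      TestFib ((MonoidalClosed.pre k).app Z)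

/-- The test fibrations, as a property of morphisms. -/
def testFib : MorphismProperty SSet.{u} := fun _ _ q => TestFib q

/-- Acyclic maps: left lifting property against the test fibrations. -/
def acyc : MorphismProperty SSet.{u} := testFib.llp

lemma hasLiftingProperty_swap {A B C D : SSet.{u}} (i : A ⟶ B) (k : C ⟶ D) (Z : SSet.{u}) :
    HasLiftingProperty i ((MonoidalClosed.pre k).app Z) ↔
      HasLiftingProperty k ((MonoidalClosed.pre i).app Z) := by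
  let sq := Functor.PushoutObjObj.ofHasPushout (curriedTensor SSet.{u}) i k
  let r := Functor.PullbackObjObj.ofIsTerminal
    MonoidalClosed.internalHom i (terminal.from Z) terminalIsTerminal
  let r' := Functor.PullbackObjObj.ofIsTerminal
    MonoidalClosed.internalHom k (terminal.from Z) terminalIsTerminal
  have h1 := MonoidalClosed.internalHomAdjunction₂.hasLiftingProperty_iff sq r
  have h2 := MonoidalClosed.internalHomAdjunction₂.hasLiftingProperty_iff sq.flipTensor r'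
  have h3 : HasLiftingProperty sq.ι (terminal.from Z) ↔
      HasLiftingProperty sq.flipTensor.ι (terminal.from Z) :=
    HasLiftingProperty.iff_of_arrow_iso_left
      (show Arrow.mk sq.ι ≅ Arrow.mk sq.flipTensor.ι from
        Arrow.isoMk (Iso.refl _) (β_ _ _)) _
  exact h2.symm.trans (h3.symm.trans h1)

lemma acyc_iff {A B : SSet.{u}} (i : A ⟶ B) :
    acyc i ↔ ∀ (Z : SSet.{u}) [KanComplex Z],
      (MorphismProperty.monomorphisms SSet.{u}).rlp ((MonoidalClosed.pre i).app Z) := by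
  constructor
  · intro h Z _ C D k hk
    have : Mono k := hk
    rw [← hasLiftingProperty_swap]
    exact h _ (TestFib.mk k Z)
  · rintro h _ _ _ ⟨k, Z⟩
    rw [hasLiftingProperty_swap]
    exact h Z k (MorphismProperty.monomorphisms.infer_property _)

lemma acyc_of_isWeq {A B : SSet.{u}} (i : A ⟶ B) [Mono i] (hi : IsWeq i) : acyc i := by
  rw [acyc_iff]
  intro Z _
  exact rlp_pre_of_isWeq i hi Z

lemma inf_vertices : (Subcomplex.ofSimplex (stdSimplex.obj₀Equiv.{u}.symm (0 : Fin 2)) ⊓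
    Subcomplex.ofSimplex (stdSimplex.obj₀Equiv.{u}.symm (1 : Fin 2)) :
      (Δ[1] : SSet.{u}).Subcomplex) = ⊥ := by
  rw [eq_bot_iff]
  rintro ⟨⟨n⟩⟩ x ⟨h1, h2⟩
  rw [Subcomplex.mem_ofSimplex_obj_iff] at h1 h2
  obtain ⟨f, rfl⟩ := h1
  obtain ⟨g, hg⟩ := h2
  exfalso
  have := congrArg (fun t : (Δ[1] : SSet.{u}) _⦋n⦌ => t 0) hg
  revert this
  change ¬ ((1 : Fin 2) = 0)
  decide

lemma const_eq_of_point {F X : SSet.{u}} {a b : F _⦋0⦌}
    (h : (SSet.const a : (Δ[0] : SSet.{u}) ⟶ F) = SSet.const b) :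
    (SSet.const a : X ⟶ F) = SSet.const b :=
  congrArg (fun φ => (SSet.const (stdSimplex.obj₀Equiv.{u}.symm 0) : X ⟶ Δ[0]) ≫ φ) h

lemma trivFib_path {E F : SSet.{u}} (q : E ⟶ F)
    (hq : (MorphismProperty.monomorphisms SSet.{u}).rlp q)
    (x₁ x₂ : E _⦋0⦌) (e : Δ[1] ⟶ F)
    (h1 : stdSimplex.δ 1 ≫ e = SSet.const x₁ ≫ q)
    (h2 : stdSimplex.δ 0 ≫ e = SSet.const x₂ ≫ q) :
    ∃ e' : Δ[1] ⟶ E, stdSimplex.δ 1 ≫ e' = SSet.const x₁ ∧
      stdSimplex.δ 0 ≫ e' = SSet.const x₂ ∧ e' ≫ q = e := by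
  have sq : Subcomplex.BicartSq (⊥ : (Δ[1] : SSet.{u}).Subcomplex)
    (Subcomplex.ofSimplex (stdSimplex.obj₀Equiv.{u}.symm (0 : Fin 2)))
    (Subcomplex.ofSimplex (stdSimplex.obj₀Equiv.{u}.symm (1 : Fin 2))) _ :=
    ⟨rfl, inf_vertices⟩
  have hp := sq.isPushout
  obtain ⟨a, ha1, ha2⟩ := hp.exists_desc (SSet.const x₁) (SSet.const x₂) (Subsingleton.elim _ _)
  rw [delta_one_eq, SSet.const_comp, SSet.const_comp] at h1
  rw [delta_zero_eq, SSet.const_comp, SSet.const_comp] at h2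
  have hsq : CommSq a (Subcomplex.ι _) q e := ⟨by
    apply hp.hom_ext
    · rw [reassoc_of% ha1, Subcomplex.homOfLE_ι_assoc, Subcomplex.ofSimplex_ι, SSet.const_comp,
        SSet.const_comp]
      exact (const_eq_of_point h1).symm
    · rw [reassoc_of% ha2, Subcomplex.homOfLE_ι_assoc, Subcomplex.ofSimplex_ι, SSet.const_comp,
        SSet.const_comp]
      exact (const_eq_of_point h2).symm⟩
  have hl := hq (Subcomplex.ι _) (MorphismProperty.monomorphisms.infer_property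
     (Subcomplex.ofSimplex (stdSimplex.obj₀Equiv.{u}.symm (0 : Fin 2)) ⊔
      Subcomplex.ofSimplex (stdSimplex.obj₀Equiv.{u}.symm (1 : Fin 2))).ι)
  obtain ⟨e', he1, he2⟩ : ∃ e' : Δ[1] ⟶ E, Subcomplex.ι _ ≫ e' = a ∧ e' ≫ q = e :=
    ⟨hsq.lift, hsq.fac_left, hsq.fac_right⟩
  refine ⟨e', ?_, ?_, he2⟩
  · have h3 := (Subcomplex.homOfLE sq.le₂₄) ≫= he1
    rw [ha1, Subcomplex.homOfLE_ι_assoc, Subcomplex.ofSimplex_ι, SSet.const_comp] at h3
    rw [delta_one_eq, SSet.const_comp]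
    exact congrArg (fun φ => (Subcomplex.lift (SSet.const (stdSimplex.obj₀Equiv.{u}.symm (0 : Fin 2)))
      (by
        rintro n _ ⟨x, rfl⟩
        exact ⟨_, rfl⟩) : (Δ[0] : SSet.{u}) ⟶ (Subcomplex.ofSimplex (stdSimplex.obj₀Equiv.{u}.symm (0 : Fin 2)) : SSet.{u})) ≫ φ) h3
  · have h3 := (Subcomplex.homOfLE sq.le₃₄) ≫= he1
    rw [ha2, Subcomplex.homOfLE_ι_assoc, Subcomplex.ofSimplex_ι, SSet.const_comp] at h3
    rw [delta_zero_eq, SSet.const_comp]
    exact congrArg (fun φ => (Subcomplex.lift (SSet.const (stdSimplex.obj₀Equiv.{u}.symm (1 : Fin 2)))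
      (by
        rintro n _ ⟨x, rfl⟩
        exact ⟨_, rfl⟩) : (Δ[0] : SSet.{u}) ⟶ (Subcomplex.ofSimplex (stdSimplex.obj₀Equiv.{u}.symm (1 : Fin 2)) : SSet.{u})) ≫ φ) h3

/-- Two vertices, morphism form. -/
lemma trivFib_path' {E F : SSet.{u}} (q : E ⟶ F)
    (hq : (MorphismProperty.monomorphisms SSet.{u}).rlp q)
    (x₁ x₂ : (Δ[0] : SSet.{u}) ⟶ E) (e : Δ[1] ⟶ F)
    (h1 : stdSimplex.δ 1 ≫ e = x₁ ≫ q)
    (h2 : stdSimplex.δ 0 ≫ e = x₂ ≫ q) :
    ∃ e' : Δ[1] ⟶ E, stdSimplex.δ 1 ≫ e' = x₁ ∧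
      stdSimplex.δ 0 ≫ e' = x₂ ∧ e' ≫ q = e := by
  have key : ∀ x : (Δ[0] : SSet.{u}) ⟶ E, ∃ y, x = SSet.const y := fun x => by
    refine ⟨x.app _ (stdSimplex.obj₀Equiv.symm 0), ?_⟩
    rw [← SSet.const_comp]
    have : (SSet.const (stdSimplex.obj₀Equiv.symm 0) : (Δ[0] : SSet.{u}) ⟶ Δ[0]) = 𝟙 _ :=
      stdSimplex.isTerminalObj₀.hom_ext _ _
    rw [this, Category.id_comp]
  obtain ⟨y₁, rfl⟩ := key x₁
  obtain ⟨y₂, rfl⟩ := key x₂
  exact trivFib_path q hq y₁ y₂ e h1 h2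

/-- Acyclic maps have the extension property with respect to Kan complexes. -/
lemma acyc.exists_extension {A B Z : SSet.{u}} [KanComplex Z] {i : A ⟶ B} (hi : acyc i)
    (g : A ⟶ Z) : ∃ g' : B ⟶ Z, i ≫ g' = g := by
  have hq := (acyc_iff i).1 hi Z
  have hm : Mono (initial.to (Δ[0] : SSet.{u})) := inferInstance
  have hl := hq (initial.to (Δ[0] : SSet.{u}))
    (MorphismProperty.monomorphisms.infer_property _)
  have hsq : CommSq (initial.to _) (initial.to (Δ[0] : SSet.{u}))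
    ((MonoidalClosed.pre i).app Z) (MonoidalClosed.curry (fst A Δ[0] ≫ g)) := ⟨by
      apply initialIsInitial.hom_ext⟩
  refine ⟨toProdZero B ≫ MonoidalClosed.uncurry hsq.lift, ?_⟩
  have h2 := congrArg MonoidalClosed.uncurry hsq.fac_right
  rw [MonoidalClosed.uncurry_curry] at h2
  have h3 : i ≫ toProdZero B = toProdZero A ≫ i ▷ Δ[0] := rfl
  rw [← Category.assoc, h3, Category.assoc, ← MonoidalClosed.uncurry_pre_app, h2]
  simp

lemma acyc.isWeq {A B : SSet.{u}} {i : A ⟶ B} (hi : acyc i) : IsWeq i := by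
  intro Z _
  refine ⟨fun g => ?_, fun g₁ g₂ h => ?_⟩
  · obtain ⟨g', hg'⟩ := hi.exists_extension g
    exact ⟨g', hg' ▸ Homotopic.refl _⟩
  · obtain ⟨h, h0, h1⟩ := h
    obtain ⟨e, he1, he2, -⟩ := trivFib_path' ((MonoidalClosed.pre i).app Z)
      ((acyc_iff i).1 hi Z) (MonoidalClosed.curry (fst B Δ[0] ≫ g₁))
      (MonoidalClosed.curry (fst B Δ[0] ≫ g₂)) (MonoidalClosed.curry h)
      (by
        rw [delta_comp_curry_one, h0, MonoidalClosed.curry_pre_app, whiskerRight_fst_assoc])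
      (by
        rw [delta_comp_curry_zero, h1, MonoidalClosed.curry_pre_app, whiskerRight_fst_assoc])
    obtain ⟨k, rfl⟩ : ∃ k, e = MonoidalClosed.curry k :=
      ⟨MonoidalClosed.uncurry e, (MonoidalClosed.curry_uncurry e).symm⟩
    rw [delta_comp_curry_one] at he1
    rw [delta_comp_curry_zero] at he2
    exact ⟨k, cancel_fst_zero (MonoidalClosed.curry_injective he1),
      cancel_fst_zero (MonoidalClosed.curry_injective he2)⟩

lemma isWeq_iff_acyc {A B : SSet.{u}} (i : A ⟶ B) [Mono i] : IsWeq i ↔ acyc i :=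
  ⟨acyc_of_isWeq i, acyc.isWeq⟩

end Pool.Agent.K4H28.WHE
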