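import Pool.Agent.K4H28.WHE.Cyl
import Pool.Agent.K4H28.WHE.Push
import Mathlib.CategoryTheory.MorphismProperty.Factorization

/-!
# A small category of weakly contractible presheaves closed under the needed operations
-/

open CategoryTheory Opposite Limits

universe u

namespace Pool.Agent.K4H28.WHE

variable (S : Type u) [SmallCategory S]

/-- The stages of the closure process. -/
def Gst : ℕ → Set (Sᵒᵖ ⥤ Type u)
  | 0 => Set.range (fun c : S => yoneda.obj c)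
  | n + 1 => ((Gst n ∪ Set.range (fun t : Σ (X Y Z : Gst n), (X.1 ⟶ Y.1) × (X.1 ⟶ Z.1) =>
      pushout t.2.2.2.1 t.2.2.2.2)) ∪
      Set.range (fun t : Σ (X Y Z : Gst n), (X.1 ⟶ Z.1) × (Y.1 ⟶ Z.1) =>
      pullback t.2.2.2.1 t.2.2.2.2)) ∪
      Set.range (fun t : Gst n × Gst n => prodP t.1.1 (KP t.2.1))

lemma small_Gst (n : ℕ) : Small.{u} (Gst S n) := by
  induction n with
  | zero =>
    unfold Gst
    infer_instance
  | succ n ih =>
    unfold Gst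
    infer_instance

lemma Gst_mono {m n : ℕ} (h : m ≤ n) : Gst S m ⊆ Gst S n := by
  induction h with
  | refl => exact subset_rfl
  | step _ ih =>
    refine ih.trans ?_
    intro P hP
    exact Or.inl (Or.inl (Or.inl hP))

/-- The closure. -/
def Gcl : Set (Sᵒᵖ ⥤ Type u) := ⋃ n, Gst S n

lemma small_Gcl : Small.{u} (Gcl S) := by
  have := small_Gst S
  unfold Gcl
  infer_instance

variable {S}

lemma Gcl.rep (c : S) : yoneda.obj c ∈ Gcl S := Set.mem_iUnion.2 ⟨0, ⟨c, rfl⟩⟩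

lemma Gcl.exists₃ {X Y Z : Sᵒᵖ ⥤ Type u} (hX : X ∈ Gcl S) (hY : Y ∈ Gcl S) (hZ : Z ∈ Gcl S) :
    ∃ n, X ∈ Gst S n ∧ Y ∈ Gst S n ∧ Z ∈ Gst S n := by
  obtain ⟨a, ha⟩ := Set.mem_iUnion.1 hX
  obtain ⟨b, hb⟩ := Set.mem_iUnion.1 hY
  obtain ⟨c, hc⟩ := Set.mem_iUnion.1 hZ
  exact ⟨max a (max b c), Gst_mono S (by omega) ha, Gst_mono S (by omega) hb,
    Gst_mono S (by omega) hc⟩

lemma Gcl.pushout {X Y Z : Sᵒᵖ ⥤ Type u} (hX : X ∈ Gcl S) (hY : Y ∈ Gcl S) (hZ : Z ∈ Gcl S)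
    (f : X ⟶ Y) (g : X ⟶ Z) : Limits.pushout f g ∈ Gcl S := by
  obtain ⟨n, h1, h2, h3⟩ := Gcl.exists₃ hX hY hZ
  exact Set.mem_iUnion.2 ⟨n + 1, Or.inl (Or.inl (Or.inr ⟨⟨⟨X, h1⟩, ⟨Y, h2⟩, ⟨Z, h3⟩, f, g⟩, rfl⟩))⟩

lemma Gcl.pullback {X Y Z : Sᵒᵖ ⥤ Type u} (hX : X ∈ Gcl S) (hY : Y ∈ Gcl S) (hZ : Z ∈ Gcl S)
    (f : X ⟶ Z) (g : Y ⟶ Z) : Limits.pullback f g ∈ Gcl S := by
  obtain ⟨n, h1, h2, h3⟩ := Gcl.exists₃ hX hY hZ
  exact Set.mem_iUnion.2 ⟨n + 1, Or.inl (Or.inr ⟨⟨⟨X, h1⟩, ⟨Y, h2⟩, ⟨Z, h3⟩, f, g⟩, rfl⟩)⟩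

lemma Gcl.fac {X Y : Sᵒᵖ ⥤ Type u} (hX : X ∈ Gcl S) (hY : Y ∈ Gcl S) :
    prodP Y (KP X) ∈ Gcl S := by
  obtain ⟨n, h1, h2, -⟩ := Gcl.exists₃ hX hY hY
  exact Set.mem_iUnion.2 ⟨n + 1, Or.inr ⟨(⟨Y, h2⟩, ⟨X, h1⟩), rfl⟩⟩

/-- Representable presheaves are weakly contractible. -/
lemma WCP_yoneda (c : S) : WCP (yoneda.obj c) := by
  apply WC_nerve_of_const (⟨c, 𝟙 c⟩ : El (yoneda.obj c))
  apply khomotopic_nerveMap
  exact
    { app := fun e => ⟨e.x, Category.comp_id _⟩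
      naturality := fun e e' s => by
        apply El.hom_ext
        change s.a ≫ e'.x = e.x ≫ 𝟙 _
        rw [Category.comp_id]
        exact s.w }

lemma WCP_of_iso {P Q : Sᵒᵖ ⥤ Type u} (e : P ≅ Q) (h : WCP P) : WCP Q := by
  have h1 : IsWeq (nerveMap (El.map e.hom)) := by
    apply IsWeq.of_homotopyInverse (nerveMap (El.map e.inv))
    · have : nerveMap (El.map e.hom) ≫ nerveMap (El.map e.inv) =
        nerveMap (El.map (e.hom ≫ e.inv)) := rfl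
      rw [this, e.hom_inv_id]
      exact KHomotopic.refl _
    · have : nerveMap (El.map e.inv) ≫ nerveMap (El.map e.hom) =
        nerveMap (El.map (e.inv ≫ e.hom)) := rfl
      rw [this, e.inv_hom_id]
      exact KHomotopic.refl _
  exact WC.of_isWeq' h1 h

variable (C : Cyl S)

/-- A small family of weakly contractible presheaves with the needed closure properties. -/
structure WData where
  /-- the index type -/
  Ob : Type u
  /-- the presheaves -/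
  φ : Ob → (Sᵒᵖ ⥤ Type u)
  wcp : ∀ o, WCP (φ o)
  rep : ∀ c : S, ∃ o, Nonempty (φ o ≅ yoneda.obj c)
  push : ∀ {X Y Z : Ob} (f : φ X ⟶ φ Y) (g : φ X ⟶ φ Z),
    (∀ c, Function.Injective (f.app c)) → ∃ o, Nonempty (φ o ≅ pushout f g)
  pull : ∀ {X Y Z : Ob} (f : φ X ⟶ φ Z) (g : φ Y ⟶ φ Z), IsF C f →
    ∃ o, Nonempty (φ o ≅ pullback f g)
  fac : ∀ (X Y : Ob), ∃ o, Nonempty (φ o ≅ prodP (φ Y) (KP (φ X)))

lemma IsF.pullback {X Y Z P : Sᵒᵖ ⥤ Type u} {f : X ⟶ Z} {g : Y ⟶ Z} {f' : P ⟶ Y} {g' : P ⟶ X}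
    (h1 : ∀ c (x : X.obj c) (y : Y.obj c), f.app c x = g.app c y →
      ∃ z : P.obj c, g'.app c z = x ∧ f'.app c z = y)
    (h2 : ∀ c (z z' : P.obj c), g'.app c z = g'.app c z' → f'.app c z = f'.app c z' → z = z')
    (w : g' ≫ f = f' ≫ g) (hf : IsF C f) : IsF C f' := by
  obtain ⟨K, H, k, hb⟩ := hf
  have w' : ∀ c (z : P.obj c), f.app c (g'.app c z) = g.app c (f'.app c z) := fun c z => by
    have : (g' ≫ f).app c = (f' ≫ g).app c := by rw [w]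
    exact ConcreteCategory.congr_hom this z
  refine ⟨K, H, g' ≫ k, fun c => ⟨?_, ?_⟩⟩
  · intro z z' h
    have h3 : f'.app c z = f'.app c z' := congrArg Prod.fst h
    have h4 : k.app c (g'.app c z) = k.app c (g'.app c z') := congrArg Prod.snd h
    apply h2 c z z' _ h3
    apply (hb c).1
    apply Prod.ext _ h4
    change f.app c (g'.app c z) = f.app c (g'.app c z')
    rw [w', w', h3]
  · rintro ⟨y, a⟩
    obtain ⟨x, hx⟩ := (hb c).2 (g.app c y, a)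
    obtain ⟨z, hz1, hz2⟩ := h1 c x y (congrArg Prod.fst hx)
    refine ⟨z, ?_⟩
    apply Prod.ext
    · exact hz2
    · change k.app c (g'.app c z) = a
      rw [hz1]
      exact congrArg Prod.snd hx

lemma IsF.of_isPullback {X Y Z P : Sᵒᵖ ⥤ Type u} {f : X ⟶ Z} {g : Y ⟶ Z} {f' : P ⟶ Y}
    {g' : P ⟶ X} (h : IsPullback g' f' f g) (hf : IsF C f) : IsF C f' := by
  have h' := fun c => h.map ((evaluation _ _).obj c)
  refine IsF.pullback C (f := f) (g := g) (g' := g') ?_ ?_ h.w hf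
  · intro c x y hxy
    exact Types.exists_of_isPullback (h' c) x y hxy
  · intro c z z' h1 h2
    exact Types.ext_of_isPullback (h' c) h1 h2

lemma isF_fst (X Y : Sᵒᵖ ⥤ Type u) : IsF C (Z := prodP Y (KP X)) (Y := Y)
    { app := fun c => ↾fun z => z.1 } := by
  refine ⟨KP X, KP.contr C X, { app := fun c => ↾fun z => z.2 }, fun c => ⟨?_, ?_⟩⟩
  · intro z z' h
    exact h
  · intro z
    exact ⟨z, rfl⟩

theorem exists_WData : Nonempty (WData C) := by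
  have h1 := small_Gcl S
  have h2 : Small.{u} {P : Sᵒᵖ ⥤ Type u // P ∈ Gcl S ∧ WCP P} :=
    small_of_injective (β := Gcl S) (f := fun P => ⟨P.1, P.2.1⟩) (by
      intro P Q h
      exact Subtype.ext (congrArg (fun t : Gcl S => t.1) h))
  let e := equivShrink.{u} {P : Sᵒᵖ ⥤ Type u // P ∈ Gcl S ∧ WCP P}
  have key : ∀ P, P ∈ Gcl S → WCP P → ∃ o, Nonempty ((e.symm o).1 ≅ P) := by
    intro P h3 h4
    refine ⟨e ⟨P, h3, h4⟩, ⟨eqToIso ?_⟩⟩
    simp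
  refine ⟨{ Ob := Shrink.{u} {P : Sᵒᵖ ⥤ Type u // P ∈ Gcl S ∧ WCP P}
            φ := fun o => (e.symm o).1
            wcp := fun o => (e.symm o).2.2
            rep := fun c => key _ (Gcl.rep c) (WCP_yoneda c)
            push := ?_
            pull := ?_
            fac := ?_ }⟩
  · intro X Y Z f g hf
    apply key _ (Gcl.pushout (e.symm X).2.1 (e.symm Y).2.1 (e.symm Z).2.1 f g)
    exact WCP_pushout (IsPushout.of_hasPushout f g) hf (e.symm X).2.2 (e.symm Y).2.2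
      (e.symm Z).2.2
  · intro X Y Z f g hf
    apply key _ (Gcl.pullback (e.symm X).2.1 (e.symm Y).2.1 (e.symm Z).2.1 f g)
    exact (IsF.of_isPullback C (IsPullback.of_hasPullback f g) hf).wcp_iff.2 (e.symm Y).2.2
  · intro X Y
    apply key _ (Gcl.fac (e.symm X).2.1 (e.symm Y).2.1)
    exact (isF_fst C (e.symm X).1 (e.symm Y).1).wcp_iff.2 (e.symm Y).2.2

end Pool.Agent.K4H28.WHE
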